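import Pool.Agent.H119R3.ETSound

/-!
# The rule system that simulates an arbitrary ET0L system: completeness
-/

namespace Pool.Agent.H119R3.ETSim

open Pool.Agent.H119R3.ETDefs Pool.Agent.H119R3.ETRules Relation Ltr

theorem repl_flatMap_pointwise {W X : Type} {a : W} {A : Set (List W)} (l : List X)
    (f g : X → List W) (h : ∀ k ∈ l, Repl a A (f k) (g k)) :
    Repl a A (l.flatMap f) (l.flatMap g) := by
  induction l with
  | nil => exact Repl.nil
  | cons k l ih =>
    rw [List.flatMap_cons, List.flatMap_cons]
    exact repl_append (h k List.mem_cons_self) (ih (fun k hk => h k (List.mem_cons_of_mem _ hk)))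

theorem repl_map_pointwise {W X : Type} {a : W} {A : Set (List W)} (l : List X)
    (f g : X → W) (h : ∀ k ∈ l, (f k = a ∧ [g k] ∈ A) ∨ (f k ≠ a ∧ g k = f k)) :
    Repl a A (l.map f) (l.map g) := by
  induction l with
  | nil => exact Repl.nil
  | cons k l ih =>
    rw [List.map_cons, List.map_cons]
    have ih' := ih (fun k hk => h k (List.mem_cons_of_mem _ hk))
    rcases h k List.mem_cons_self with ⟨h1, h2⟩ | ⟨h1, h2⟩
    · rw [h1]
      exact Repl.hit h2 ih'
    · rw [h2]
      exact Repl.skip h1 ih'

theorem repl_single_hit {W : Type} {a : W} {A : Set (List W)} {u : List W} (hu : u ∈ A) :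
    Repl a A [a] u := by
  have := Repl.hit hu (Repl.nil (a := a) (A := A))
  rwa [List.append_nil] at this

variable {V I T : Type} {N K : ℕ}

/-- the ring word -/
def ringW (x : Bool) (p : ℕ) : List (Ltr V I T N K) :=
  (List.finRange (N + 2)).map (fun j => b j (bit x p j.val))

/-- the word of the erasers -/
def esW : List (Ltr V I T N K) := (List.finRange (K + 1)).map e

/-- the control word -/
def ctlW (x : Bool) (p : ℕ) : List (Ltr V I T N K) := ringW x p ++ esW

theorem mem_ringW {x : Bool} {p : ℕ} {c : Ltr V I T N K} :
    c ∈ (ringW x p : List (Ltr V I T N K)) ↔ ∃ j : Fin (N + 2), c = b j (bit x p j.val) := by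
  unfold ringW
  simp [eq_comm]

theorem mem_esW {c : Ltr V I T N K} :
    c ∈ (esW : List (Ltr V I T N K)) ↔ ∃ k, c = e k := by
  unfold esW
  simp [eq_comm]

theorem mem_ctlW {x : Bool} {p : ℕ} {c : Ltr V I T N K} :
    c ∈ (ctlW x p : List (Ltr V I T N K)) ↔
      (∃ j : Fin (N + 2), c = b j (bit x p j.val)) ∨ ∃ k, c = e k := by
  unfold ctlW
  rw [List.mem_append, mem_ringW, mem_esW]

theorem b_mem_ctlW {x : Bool} {p : ℕ} {j : Fin (N + 2)} {y : Bool} :
    (b j y : Ltr V I T N K) ∈ (ctlW x p : List (Ltr V I T N K)) ↔ y = bit x p j.val := by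
  rw [mem_ctlW]
  constructor
  · rintro (⟨j', hj⟩ | ⟨k, hk⟩)
    · simp only [Ltr.b.injEq] at hj
      obtain ⟨rfl, rfl⟩ := hj
      rfl
    · simp at hk
  · rintro rfl
    exact Or.inl ⟨j, rfl⟩

theorem ctl_of_mem_ctlW {x : Bool} {p : ℕ} {c : Ltr V I T N K}
    (hc : c ∈ (ctlW x p : List (Ltr V I T N K))) : IsCtl c := by
  rw [mem_ctlW] at hc
  rcases hc with ⟨j, rfl⟩ | ⟨k, rfl⟩ <;> simp [IsCtl]

/-- content words -/
def Cont (c : List (Ltr V I T N K)) : Prop := ∀ l ∈ c, ¬ IsCtl l

section

variable {h : I → V → Set (List V)} {ι : T → V}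
    {en : Fin (N + 1) → V ⊕ ((I × Option V) × (I × Option V))} {vs : Fin K → V}

theorem step_flip {x : Bool} {j : Fin (N + 1)} {c : List (Ltr V I T N K)} (hc : Cont c)
    (hcl : (∀ l ∈ (cl x (en j)).1, l ∉ c) ∨ (∀ l ∈ (cl x (en j)).2, l ∉ c)) :
    RStep (rule h ι en vs) (ctlW x (j.val + 1) ++ c) (ctlW x (j.val + 2) ++ c) := by
  have hrep : Repl (b j.succ (!x) : Ltr V I T N K) {[b j.succ x]}
      (ctlW x (j.val + 1) ++ c) (ctlW x (j.val + 2) ++ c) := by
    refine repl_append (repl_append ?_ ?_) ?_
    · refine repl_map_pointwise _ _ _ ?_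
      intro k _
      by_cases hk : k = j.succ
      · left
        subst hk
        simp [bit]
      · right
        refine ⟨by simp [hk], ?_⟩
        have h1 : k.val ≠ j.val + 1 := fun h => hk (Fin.ext (by simpa using h))
        congr 1
        unfold bit
        by_cases h2 : k.val < j.val + 1
        · rw [if_pos h2, if_pos (by omega)]
        · rw [if_neg h2, if_neg (by omega)]
    · refine repl_refl ?_
      rw [mem_esW]
      simp
    · refine repl_refl ?_
      intro hm
      exact hc _ hm (by simp [IsCtl])
  have hguard1 : (b j.castSucc (!x) : Ltr V I T N K) ∉ (ctlW x (j.val + 1) ++ c) := by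
    rw [List.mem_append, b_mem_ctlW, not_or]
    refine ⟨?_, fun hm => hc _ hm (by simp [IsCtl])⟩
    simp [bit]
  have hguard2 : ∀ l, (l ∈ (cl x (en j)).1 ∨ l ∈ (cl x (en j)).2) → l ∉ c →
      l ∉ (ctlW x (j.val + 1) ++ c) := by
    intro l hl hlc
    rw [List.mem_append, not_or]
    exact ⟨fun hm => cl_ctl _ _ l hl (ctl_of_mem_ctlW hm), hlc⟩
  rcases hcl with hcl | hcl
  · refine ⟨.R j x true, ?_, ?_, hrep⟩
    · intro g hg
      simp only [rule, Option.mem_def, Option.some.injEq] at hg
      subst hg
      exact hguard1
    · intro g hg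
      simp only [rule, if_true] at hg
      exact hguard2 g (Or.inl hg) (hcl g hg)
  · refine ⟨.R j x false, ?_, ?_, hrep⟩
    · intro g hg
      simp only [rule, Option.mem_def, Option.some.injEq] at hg
      subst hg
      exact hguard1
    · intro g hg
      have hg' : g ∈ (cl x (en j)).2 := by simpa [rule] using hg
      exact hguard2 g (Or.inr hg') (hcl g hg')

theorem steps_flip {x : Bool} {c : List (Ltr V I T N K)} (hc : Cont c)
    (hcl : ∀ j, (∀ l ∈ (cl x (en j)).1, l ∉ c) ∨ (∀ l ∈ (cl x (en j)).2, l ∉ c)) :
    ReflTransGen (RStep (rule h ι en vs)) (ctlW x 1 ++ c) (ctlW x (N + 2) ++ c) := by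
  have key : ∀ p, p ≤ N + 1 →
      ReflTransGen (RStep (rule h ι en vs)) (ctlW x 1 ++ c) (ctlW x (p + 1) ++ c) := by
    intro p
    induction p with
    | zero => intro _; exact ReflTransGen.refl
    | succ p ih =>
      intro hp
      exact (ih (by omega)).tail (step_flip (j := ⟨p, by omega⟩) hc (hcl _))
  exact key (N + 1) (le_refl _)

theorem step_zero {x : Bool} {c : List (Ltr V I T N K)} (hc : Cont c) :
    RStep (rule h ι en vs) (ctlW x (N + 2) ++ c) (ctlW (!x) 1 ++ c) := by
  refine ⟨.R0 (!x), ?_, ?_, ?_⟩
  · intro g hg
    simp only [rule, Option.mem_def, Option.some.injEq] at hg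
    subst hg
    rw [List.mem_append, b_mem_ctlW, not_or]
    refine ⟨?_, fun hm => hc _ hm (by simp [IsCtl])⟩
    simp [bit]
  · intro g hg
    simp only [rule] at hg
    have : g = f := by
      cases x <;> simp at hg
      exact hg.symm
    subst this
    rw [List.mem_append, mem_ctlW, not_or]
    refine ⟨by simp, fun hm => hc _ hm (by simp [IsCtl])⟩
  · simp only [rule, Bool.not_not]
    refine repl_append (repl_append ?_ ?_) ?_
    · refine repl_map_pointwise _ _ _ ?_
      intro k _
      by_cases hk : k = 0
      · left
        subst hk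
        simp [bit]
      · right
        refine ⟨by simp [hk], ?_⟩
        have h1 : k.val ≠ 0 := fun h => hk (Fin.ext (by simpa using h))
        congr 1
        unfold bit
        rw [if_neg (by omega), if_pos (by omega), Bool.not_not]
    · refine repl_refl ?_
      rw [mem_esW]
      simp
    · refine repl_refl ?_
      intro hm
      exact hc _ hm (by simp [IsCtl])

open Classical in
/-- content during the marking phase -/
noncomputable def mid (i : I) (S : List V) (ps : List (V × List V)) : List (Ltr V I T N K) :=
  ps.flatMap (fun q => if q.1 ∈ S then mark i q.2 else [s0 q.1])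

theorem cont_mid (i : I) (S : List V) (ps : List (V × List V)) :
    Cont (mid i S ps : List (Ltr V I T N K)) := by
  intro l hl
  unfold mid at hl
  rw [List.mem_flatMap] at hl
  obtain ⟨q, _, hq⟩ := hl
  split_ifs at hq
  · obtain ⟨u, rfl⟩ := mem_mark hq
    simp [IsCtl]
  · rw [List.mem_singleton] at hq
    subst hq
    simp [IsCtl]

theorem step_T {i : I} {S : List V} {ps : List (V × List V)} (v : V)
    (hps : ∀ q ∈ ps, q.2 ∈ h i q.1) :
    RStep (rule h ι en vs) (ctlW true 1 ++ mid i S ps) (ctlW true 1 ++ mid i (v :: S) ps) := by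
  refine ⟨.T1 i v, ?_, ?_, ?_⟩
  · intro g hg
    simp only [rule, Option.mem_def, Option.some.injEq] at hg
    subst hg
    rw [List.mem_append, b_mem_ctlW, not_or]
    refine ⟨by simp [bit], fun hm => cont_mid _ _ _ _ hm (by simp [IsCtl])⟩
  · intro g hg
    simp only [rule, Option.mem_def, Option.some.injEq] at hg
    subst hg
    rw [List.mem_append, b_mem_ctlW, not_or]
    refine ⟨by simp [bit], fun hm => cont_mid _ _ _ _ hm (by simp [IsCtl])⟩
  · simp only [rule]
    refine repl_append (repl_refl ?_) ?_
    · intro hm
      exact absurd (ctl_of_mem_ctlW hm) (by simp [IsCtl])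
    · refine repl_flatMap_pointwise _ _ _ ?_
      intro q hq
      by_cases h1 : q.1 ∈ S
      · rw [if_pos h1, if_pos (List.mem_cons_of_mem _ h1)]
        refine repl_refl ?_
        intro hm
        obtain ⟨u, hu⟩ := mem_mark hm
        simp at hu
      · rw [if_neg h1]
        by_cases h2 : q.1 = v
        · subst h2
          rw [if_pos List.mem_cons_self]
          exact repl_single_hit ⟨q.2, hps q hq, rfl⟩
        · rw [if_neg (by simp [h1, h2])]
          exact repl_refl (by simpa using Ne.symm h2)

theorem steps_T {i : I} {ps : List (V × List V)} (L : List V)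
    (hps : ∀ q ∈ ps, q.2 ∈ h i q.1) :
    ReflTransGen (RStep (rule h ι en vs)) (ctlW true 1 ++ mid i [] ps)
      (ctlW true 1 ++ mid i L ps) := by
  induction L with
  | nil => exact ReflTransGen.refl
  | cons v L ih => exact ih.tail (step_T v hps)

open Classical in
/-- content during the unmarking phase -/
noncomputable def mid2 (i : I) (S : List (Option V)) (c : List (Ltr V I T N K)) :
    List (Ltr V I T N K) :=
  c.flatMap (fun l => match l with
    | .s1 i' u => if i' = i ∧ u ∈ S then u.toList.map s0 else [s1 i' u]
    | l => [l])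

theorem cont_mid2 {i : I} {S : List (Option V)} {c : List (Ltr V I T N K)} (hc : Cont c) :
    Cont (mid2 i S c) := by
  intro l hl
  unfold mid2 at hl
  rw [List.mem_flatMap] at hl
  obtain ⟨q, hq1, hq⟩ := hl
  cases q with
  | s1 i' u =>
    simp only at hq
    split_ifs at hq
    · obtain ⟨v, _, rfl⟩ := List.mem_map.1 hq
      simp [IsCtl]
    · rw [List.mem_singleton] at hq
      subst hq
      simp [IsCtl]
  | _ => rw [List.mem_singleton] at hq; subst hq; exact hc _ hq1

theorem step_U {i : I} {S : List (Option V)} {c : List (Ltr V I T N K)} (hc : Cont c)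
    (u : Option V) :
    RStep (rule h ι en vs) (ctlW false 1 ++ mid2 i S c) (ctlW false 1 ++ mid2 i (u :: S) c) := by
  refine ⟨.U i u, ?_, ?_, ?_⟩
  · intro g hg
    simp only [rule, Option.mem_def, Option.some.injEq] at hg
    subst hg
    rw [List.mem_append, b_mem_ctlW, not_or]
    refine ⟨by simp [bit], fun hm => cont_mid2 hc _ hm (by simp [IsCtl])⟩
  · intro g hg
    simp only [rule, Option.mem_def, Option.some.injEq] at hg
    subst hg
    rw [List.mem_append, b_mem_ctlW, not_or]
    refine ⟨by simp [bit], fun hm => cont_mid2 hc _ hm (by simp [IsCtl])⟩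
  · simp only [rule]
    refine repl_append (repl_refl ?_) ?_
    · intro hm
      exact absurd (ctl_of_mem_ctlW hm) (by simp [IsCtl])
    · refine repl_flatMap_pointwise _ _ _ ?_
      intro q hq
      cases q with
      | s1 i' u' =>
        simp only
        by_cases h1 : i' = i ∧ u' ∈ S
        · rw [if_pos h1, if_pos ⟨h1.1, List.mem_cons_of_mem _ h1.2⟩]
          refine repl_refl ?_
          simp
        · rw [if_neg h1]
          by_cases h2 : i' = i ∧ u' = u
          · obtain ⟨rfl, rfl⟩ := h2
            rw [if_pos ⟨rfl, List.mem_cons_self⟩]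
            exact repl_single_hit rfl
          · rw [if_neg]
            · refine repl_refl ?_
              simp only [List.mem_singleton, Ltr.s1.injEq]
              exact fun h => h2 ⟨h.1.symm, h.2.symm⟩
            · rintro ⟨h3, h4⟩
              rcases List.mem_cons.1 h4 with h4 | h4
              · exact h2 ⟨h3, h4⟩
              · exact h1 ⟨h3, h4⟩
      | _ => exact repl_refl (by simp)

theorem steps_U {i : I} {c : List (Ltr V I T N K)} (hc : Cont c) (L : List (Option V)) :
    ReflTransGen (RStep (rule h ι en vs)) (ctlW false 1 ++ mid2 i [] c)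
      (ctlW false 1 ++ mid2 i L c) := by
  induction L with
  | nil => exact ReflTransGen.refl
  | cons v L ih => exact ih.tail (step_U hc v)

theorem mid2_nil {i : I} {c : List (Ltr V I T N K)} : mid2 i [] c = c := by
  unfold mid2
  induction c with
  | nil => rfl
  | cons l c ih =>
    rw [List.flatMap_cons, ih]
    cases l <;> simp

/-- decomposition of a rewriting -/
theorem exists_pairs {g : V → Set (List V)} {y z : List V} (hr : Rewrites g y z) :
    ∃ ps : List (V × List V), y = ps.map Prod.fst ∧ z = ps.flatMap Prod.snd ∧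
      ∀ q ∈ ps, q.2 ∈ g q.1 := by
  induction hr with
  | nil => exact ⟨[], rfl, rfl, by simp⟩
  | @cons c x u y hu _ ih =>
    obtain ⟨ps, rfl, rfl, h3⟩ := ih
    refine ⟨(c, u) :: ps, rfl, by simp, ?_⟩
    intro q hq
    rcases List.mem_cons.1 hq with rfl | hq
    · exact hu
    · exact h3 q hq

theorem flatMap_single {X Y : Type} (g : X → Y) (l : List X) :
    l.flatMap (fun a => [g a]) = l.map g := by
  induction l with
  | nil => rfl
  | cons a l ih => rw [List.flatMap_cons, ih]; rfl

theorem mid_nil (i : I) (ps : List (V × List V)) :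
    (mid i [] ps : List (Ltr V I T N K)) = (ps.map Prod.fst).map s0 := by
  unfold mid
  induction ps with
  | nil => rfl
  | cons q ps ih =>
    rw [List.flatMap_cons, ih]
    simp

theorem mid2_marks {i : I} {L : List (Option V)} (hL : ∀ u, u ∈ L) (ps : List (V × List V)) :
    (mid2 i L (ps.flatMap (fun q => mark i q.2)) : List (Ltr V I T N K)) =
      (ps.flatMap Prod.snd).map s0 := by
  have h1 : ∀ α : List V, (mid2 i L (mark i α) : List (Ltr V I T N K)) = α.map s0 := by
    intro α
    cases α with
    | nil => simp [mid2, mark, hL]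
    | cons u us =>
      unfold mid2 mark
      rw [List.flatMap_map]
      simp [hL, flatMap_single]
  induction ps with
  | nil => rfl
  | cons q ps ih =>
    rw [List.flatMap_cons, List.flatMap_cons, List.map_append, ← ih, ← h1]
    unfold mid2
    rw [List.flatMap_append]

/-- one lap of the ring simulates one step -/
theorem lap [Finite V] {i : I} {y z : List V} (hr : Rewrites (h i) y z) :
    ReflTransGen (RStep (rule h ι en vs)) (ctlW false (N + 2) ++ y.map s0)
      (ctlW false (N + 2) ++ z.map s0) := by
  obtain ⟨ps, rfl, rfl, hps⟩ := exists_pairs hr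
  have := Fintype.ofFinite V
  have hL : ∀ v : V, v ∈ (Finset.univ : Finset V).toList := by simp
  generalize (Finset.univ : Finset V).toList = L at hL
  have hL2 : ∀ u : Option V, u ∈ none :: L.map some := by
    intro u
    cases u with
    | none => simp
    | some v => simp [hL]
  have hm0 : (mid i [] ps : List (Ltr V I T N K)) = (ps.map Prod.fst).map s0 := mid_nil i ps
  have hm1 : (mid i L ps : List (Ltr V I T N K)) = ps.flatMap (fun q => mark i q.2) := by
    unfold mid
    simp [hL]
  have s1' : RStep (rule h ι en vs) (ctlW false (N + 2) ++ (ps.map Prod.fst).map s0)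
      (ctlW true 1 ++ mid i [] ps) := by
    rw [← hm0]
    exact step_zero (cont_mid _ _ _)
  have s2' := steps_T (ι := ι) (en := en) (vs := vs) L hps
  have hc1 : Cont (mid i L ps : List (Ltr V I T N K)) := cont_mid _ _ _
  have s3' : ReflTransGen (RStep (rule h ι en vs)) (ctlW true 1 ++ mid i L ps)
      (ctlW true (N + 2) ++ mid i L ps) := by
    refine steps_flip hc1 ?_
    intro j
    have hmem : ∀ l : Ltr V I T N K, l ∈ mid i L ps → ∃ u, l = s1 i u := by
      intro l hl
      rw [hm1, List.mem_flatMap] at hl
      obtain ⟨q, _, hq⟩ := hl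
      exact mem_mark hq
    rcases en j with v | ⟨p, q⟩
    · left
      intro l hl hl2
      simp only [cl, Option.mem_def, Option.some.injEq] at hl
      subst hl
      obtain ⟨u, hu⟩ := hmem _ hl2
      simp at hu
    · by_cases hpq : p.1 = q.1
      · left
        simp [cl, hpq]
      · by_cases hp : p.1 = i
        · right
          intro l hl hl2
          simp only [cl, if_neg hpq, Option.mem_def, Option.some.injEq] at hl
          subst hl
          obtain ⟨u, hu⟩ := hmem _ hl2
          simp only [Ltr.s1.injEq] at hu
          exact hpq (hp.trans hu.1.symm)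
        · left
          intro l hl hl2
          simp only [cl, if_neg hpq, Option.mem_def, Option.some.injEq] at hl
          subst hl
          obtain ⟨u, hu⟩ := hmem _ hl2
          simp only [Ltr.s1.injEq] at hu
          exact hp hu.1
  have s4' : RStep (rule h ι en vs) (ctlW true (N + 2) ++ mid i L ps)
      (ctlW false 1 ++ mid i L ps) := step_zero hc1
  have s5' := steps_U (h := h) (ι := ι) (en := en) (vs := vs) (i := i) hc1 (none :: L.map some)
  have hc2 : Cont (mid2 i (none :: L.map some) (mid i L ps) : List (Ltr V I T N K)) :=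
    cont_mid2 hc1
  have s6' : ReflTransGen (RStep (rule h ι en vs))
      (ctlW false 1 ++ mid2 i (none :: L.map some) (mid i L ps))
      (ctlW false (N + 2) ++ mid2 i (none :: L.map some) (mid i L ps)) := by
    refine steps_flip hc2 ?_
    intro j
    rcases en j with v | ⟨p, q⟩
    · left
      simp [cl]
    · left
      intro l hl hl2
      simp only [cl, Option.mem_def, Option.some.injEq] at hl
      subst hl
      rw [hm1, mid2_marks hL2] at hl2
      simp at hl2
  rw [mid2_nil] at s5'
  rw [hm1, mid2_marks hL2] at s6'
  rw [hm1] at s5' s4' s3' s2'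
  rw [mid2_marks hL2] at s5'
  exact (((ReflTransGen.single s1').trans s2').trans (s3'.tail s4')).trans (s5'.trans s6')

/-- the erasers after the mode change -/
def esF : List (Ltr V I T N K) := f :: (List.finRange K).map (fun k => e k.succ)

/-- the control word after the mode change -/
def ctlF : List (Ltr V I T N K) := ringW false (N + 2) ++ esF

theorem mem_ctlF {c : Ltr V I T N K} :
    c ∈ (ctlF : List (Ltr V I T N K)) ↔
      (∃ j : Fin (N + 2), c = b j false) ∨ c = f ∨ ∃ k : Fin K, c = e k.succ := by
  unfold ctlF esF
  rw [List.mem_append, mem_ringW, List.mem_cons]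
  have h1 : ∀ j : Fin (N + 2), bit false (N + 2) j.val = false := by
    intro j
    unfold bit
    rw [if_pos j.isLt]
  simp [h1, eq_comm]

theorem step_M {c : List (Ltr V I T N K)} (hc : Cont c) :
    RStep (rule h ι en vs) (ctlW false (N + 2) ++ c) (ctlF ++ c) := by
  refine ⟨.M, ?_, ?_, ?_⟩
  · intro g hg
    simp only [rule, Option.mem_def, Option.some.injEq] at hg
    subst hg
    rw [List.mem_append, b_mem_ctlW, not_or]
    refine ⟨by simp [bit], fun hm => hc _ hm (by simp [IsCtl])⟩
  · intro g hg
    simp only [rule, Option.mem_def, Option.some.injEq] at hg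
    subst hg
    rw [List.mem_append, b_mem_ctlW, not_or]
    refine ⟨by simp [bit], fun hm => hc _ hm (by simp [IsCtl])⟩
  · simp only [rule]
    unfold ctlW ctlF
    refine repl_append (repl_append ?_ ?_) ?_
    · refine repl_refl ?_
      rw [mem_ringW]
      simp
    · unfold esW esF
      rw [List.finRange_succ, List.map_cons, List.map_map]
      refine repl_append (x := [e 0]) (x' := [f]) (repl_single_hit rfl) ?_
      refine repl_refl ?_
      intro hm
      obtain ⟨k, _, hk⟩ := List.mem_map.1 hm
      simp only [Function.comp, Ltr.e.injEq] at hk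
      exact Fin.succ_ne_zero k hk
    · refine repl_refl ?_
      intro hm
      exact hc _ hm (by simp [IsCtl])

open Classical in
/-- content during the terminal phase -/
noncomputable def mid3 (ι : T → V) (S : List T) (w : List T) : List (Ltr V I T N K) :=
  w.map (fun a => if a ∈ S then t a else s0 (ι a))

theorem cont_mid3 (S : List T) (w : List T) :
    Cont (mid3 ι S w : List (Ltr V I T N K)) := by
  intro l hl
  unfold mid3 at hl
  obtain ⟨q, _, hq⟩ := List.mem_map.1 hl
  split_ifs at hq <;> subst hq <;> simp [IsCtl]

theorem step_X (hι : Function.Injective ι) {S : List T} {w : List T} (a : T) :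
    RStep (rule h ι en vs) (ctlF ++ mid3 ι S w) (ctlF ++ mid3 ι (a :: S) w) := by
  have h0 : (e 0 : Ltr V I T N K) ∉ ctlF ++ mid3 ι S w := by
    rw [List.mem_append, mem_ctlF, not_or]
    refine ⟨?_, fun hm => cont_mid3 _ _ _ hm (by simp [IsCtl])⟩
    rintro (⟨j, hj⟩ | hj | ⟨k, hk⟩)
    · simp at hj
    · simp at hj
    · simp only [Ltr.e.injEq] at hk
      exact Fin.succ_ne_zero k hk.symm
  refine ⟨.X a, ?_, ?_, ?_⟩
  · intro g hg
    simp only [rule, Option.mem_def, Option.some.injEq] at hg
    subst hg
    exact h0
  · intro g hg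
    simp only [rule, Option.mem_def, Option.some.injEq] at hg
    subst hg
    exact h0
  · simp only [rule]
    refine repl_append (repl_refl ?_) ?_
    · rw [mem_ctlF]
      simp
    · refine repl_map_pointwise _ _ _ ?_
      intro q _
      by_cases h1 : q ∈ S
      · right
        rw [if_pos h1, if_pos (List.mem_cons_of_mem _ h1)]
        simp
      · rw [if_neg h1]
        by_cases h2 : q = a
        · left
          subst h2
          simp
        · right
          rw [if_neg (by simp [h1, h2])]
          refine ⟨?_, rfl⟩
          simp only [ne_eq, Ltr.s0.injEq]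
          exact fun h => h2 (hι h)

theorem steps_X (hι : Function.Injective ι) {w : List T} (L : List T) :
    ReflTransGen (RStep (rule h ι en vs)) (ctlF ++ mid3 ι [] w) (ctlF ++ mid3 ι L w) := by
  induction L with
  | nil => exact ReflTransGen.refl
  | cons v L ih => exact ih.tail (step_X hι v)

open Classical in
/-- erasing a set of letters -/
noncomputable def er {W : Type} (P : Set W) (w : List W) : List W :=
  w.filter (fun c => decide (c ∉ P))

theorem mem_er {W : Type} {P : Set W} {w : List W} {c : W} : c ∈ er P w ↔ c ∈ w ∧ c ∉ P := by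
  unfold er
  rw [List.mem_filter]
  simp

theorem er_empty {W : Type} {w : List W} : er ∅ w = w := by
  unfold er
  rw [List.filter_eq_self]
  simp

theorem er_append {W : Type} {P : Set W} {x y : List W} : er P (x ++ y) = er P x ++ er P y := by
  unfold er
  rw [List.filter_append]

theorem er_eq_nil {W : Type} {P : Set W} {w : List W} (hw : ∀ c ∈ w, c ∈ P) : er P w = [] := by
  unfold er
  rw [List.filter_eq_nil_iff]
  intro c hc
  simp [hw c hc]

theorem er_eq_self {W : Type} {P : Set W} {w : List W} (hw : ∀ c ∈ w, c ∉ P) : er P w = w := by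
  unfold er
  rw [List.filter_eq_self]
  intro c hc
  simp [hw c hc]

theorem repl_er {W : Type} (P : Set W) (a : W) (w : List W) :
    Repl a {[]} (er P w) (er (insert a P) w) := by
  induction w with
  | nil => exact Repl.nil
  | cons c w ih =>
    unfold er at ih ⊢
    by_cases h1 : c ∈ P
    · rw [List.filter_cons_of_neg (by simpa using h1), List.filter_cons_of_neg (by simp [h1])]
      exact ih
    · rw [List.filter_cons_of_pos (by simpa using h1)]
      by_cases h2 : c = a
      · subst h2
        rw [List.filter_cons_of_neg (by simp)]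
        exact Repl.hit (u := []) rfl ih
      · rw [List.filter_cons_of_pos (by simp [h1, h2])]
        exact Repl.skip h2 ih

theorem final [Finite T] (hι : Function.Injective ι) (w : List T) :
    ReflTransGen (RStep (rule h ι en vs)) (ctlW false (N + 2) ++ (w.map ι).map s0)
      (w.map Ltr.t) := by
  have := Fintype.ofFinite T
  have hL : ∀ v : T, v ∈ (Finset.univ : Finset T).toList := by simp
  generalize (Finset.univ : Finset T).toList = L at hL
  have hm0 : (mid3 ι [] w : List (Ltr V I T N K)) = (w.map ι).map s0 := by
    unfold mid3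
    rw [List.map_map]
    simp [Function.comp_def]
  have hm1 : (mid3 ι L w : List (Ltr V I T N K)) = w.map t := by
    unfold mid3
    simp [hL]
  have s1' : RStep (rule h ι en vs) (ctlW false (N + 2) ++ (w.map ι).map s0)
      (ctlF ++ mid3 ι [] w) := by
    rw [← hm0]
    exact step_M (cont_mid3 _ _)
  have s2' := steps_X (h := h) (en := en) (vs := vs) (w := w) (I := I) hι L
  rw [hm1] at s2'
  -- erasing the erasers
  have s3' : ∀ k, k ≤ K → ReflTransGen (RStep (rule h ι en vs)) (ctlF ++ w.map t)
      (er {c | ∃ l : Fin K, l.val < k ∧ c = e l.succ} (ctlF ++ w.map t)) := by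
    intro k
    induction k with
    | zero =>
      intro _
      have : {c : Ltr V I T N K | ∃ l : Fin K, l.val < 0 ∧ c = e l.succ} = ∅ := by
        ext c; simp
      rw [this, er_empty]
    | succ k ih =>
      intro hk
      refine (ih (by omega)).tail ⟨.E ⟨k, by omega⟩, ?_, ?_, ?_⟩
      · intro g hg
        simp only [rule, Option.mem_def, Option.some.injEq] at hg
        subst hg
        rw [mem_er, List.mem_append, mem_ctlF]
        simp
      · intro g hg
        simp only [rule, Option.mem_def, Option.some.injEq] at hg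
        subst hg
        rw [mem_er, List.mem_append, mem_ctlF]
        rintro ⟨h1, h2⟩
        rcases h1 with (⟨j, hj⟩ | hj | ⟨l, hl⟩) | h1
        · simp at hj
        · simp at hj
        · apply h2
          refine ⟨l, ?_, hl⟩
          simp only [Ltr.e.injEq] at hl
          have := congrArg Fin.val hl
          simp at this
          omega
        · simp at h1
      · simp only [rule]
        have : {c : Ltr V I T N K | ∃ l : Fin K, l.val < k + 1 ∧ c = e l.succ} =
            insert (e (Fin.succ ⟨k, by omega⟩))
              {c : Ltr V I T N K | ∃ l : Fin K, l.val < k ∧ c = e l.succ} := by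
          ext c
          simp only [Set.mem_ofPred_eq, Set.mem_insert_iff]
          constructor
          · rintro ⟨l, hl, rfl⟩
            rcases Nat.lt_succ_iff_lt_or_eq.1 hl with h3 | h3
            · exact Or.inr ⟨l, h3, rfl⟩
            · left
              congr 2
              exact Fin.ext h3
          · rintro (rfl | ⟨l, hl, rfl⟩)
            · exact ⟨⟨k, by omega⟩, by simp, rfl⟩
            · exact ⟨l, by omega, rfl⟩
        rw [this]
        exact repl_er _ _ _
  have s3'' := s3' K le_rfl
  -- erasing the ring
  have s4' : ∀ (P : Set (Ltr V I T N K)), ∀ k, k ≤ N + 1 →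
      ReflTransGen (RStep (rule h ι en vs)) (er P (ctlF ++ w.map t))
      (er (P ∪ {c | ∃ l : Fin (N + 1), l.val < k ∧ c = b l.succ false}) (ctlF ++ w.map t)) := by
    intro P k
    induction k with
    | zero =>
      intro _
      have : {c : Ltr V I T N K | ∃ l : Fin (N + 1), l.val < 0 ∧ c = b l.succ false} = ∅ := by
        ext c; simp
      rw [this, Set.union_empty]
    | succ k ih =>
      intro hk
      refine (ih (by omega)).tail ⟨.Z ⟨k, by omega⟩ false, ?_, ?_, ?_⟩
      · intro g hg
        simp only [rule, Option.mem_def, Option.some.injEq] at hg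
        subst hg
        rw [mem_er, List.mem_append, mem_ctlF]
        rintro ⟨h1, h2⟩
        rcases h1 with (⟨j, hj⟩ | hj | ⟨l, hl⟩) | h1
        · simp at hj
        · simp at hj
        · simp only [Ltr.e.injEq] at hl
          exact Fin.succ_ne_zero _ hl.symm
        · simp at h1
      · intro g hg
        simp [rule] at hg
      · simp only [rule]
        have : P ∪ {c : Ltr V I T N K | ∃ l : Fin (N + 1), l.val < k + 1 ∧ c = b l.succ false} =
            insert (b (Fin.succ ⟨k, by omega⟩) false)
              (P ∪ {c : Ltr V I T N K | ∃ l : Fin (N + 1), l.val < k ∧ c = b l.succ false}) := by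
          ext c
          simp only [Set.mem_union, Set.mem_ofPred_eq, Set.mem_insert_iff]
          constructor
          · rintro (h0 | ⟨l, hl, rfl⟩)
            · exact Or.inr (Or.inl h0)
            · rcases Nat.lt_succ_iff_lt_or_eq.1 hl with h3 | h3
              · exact Or.inr (Or.inr ⟨l, h3, rfl⟩)
              · left
                congr 2
                exact Fin.ext h3
          · rintro (rfl | h0 | ⟨l, hl, rfl⟩)
            · exact Or.inr ⟨⟨k, by omega⟩, by simp, rfl⟩
            · exact Or.inl h0
            · exact Or.inr ⟨l, by omega, rfl⟩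
        rw [this]
        exact repl_er _ _ _
  have s4'' := s4' {c | ∃ l : Fin K, l.val < K ∧ c = e l.succ} (N + 1) le_rfl
  have he : {c : Ltr V I T N K | ∃ l : Fin K, l.val < K ∧ c = e l.succ} =
      {c | ∃ l : Fin K, c = e l.succ} := by
    ext c
    simp
  have hb' : {c : Ltr V I T N K | ∃ l : Fin (N + 1), l.val < N + 1 ∧ c = b l.succ false} =
      {c | ∃ l : Fin (N + 1), c = b l.succ false} := by
    ext c
    constructor
    · rintro ⟨l, _, hl⟩; exact ⟨l, hl⟩
    · rintro ⟨l, hl⟩; exact ⟨l, l.isLt, hl⟩
  rw [he, hb'] at s4''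
  rw [he] at s3''
  have s5' : RStep (rule h ι en vs)
      (er ({c | ∃ l : Fin K, c = e l.succ} ∪ {c | ∃ l : Fin (N + 1), c = b l.succ false})
        (ctlF ++ w.map t))
      (er (insert (b 0 false) ({c | ∃ l : Fin K, c = e l.succ} ∪
        {c | ∃ l : Fin (N + 1), c = b l.succ false})) (ctlF ++ w.map t)) := by
    refine ⟨.Z0, ?_, ?_, ?_⟩
    · intro g hg
      simp only [rule, Option.mem_def, Option.some.injEq] at hg
      subst hg
      rw [mem_er, List.mem_append, mem_ctlF]
      rintro ⟨h1, h2⟩
      rcases h1 with (⟨j, hj⟩ | hj | ⟨l, hl⟩) | h1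
      · simp at hj
      · simp at hj
      · exact h2 (Or.inl ⟨l, hl⟩)
      · simp at h1
    · intro g hg
      simp [rule] at hg
    · exact repl_er _ _ _
  have s6' : RStep (rule h ι en vs)
      (er (insert (b 0 false) ({c | ∃ l : Fin K, c = e l.succ} ∪
        {c | ∃ l : Fin (N + 1), c = b l.succ false})) (ctlF ++ w.map t))
      (er (insert f (insert (b 0 false) ({c | ∃ l : Fin K, c = e l.succ} ∪
        {c | ∃ l : Fin (N + 1), c = b l.succ false}))) (ctlF ++ w.map t)) := by
    refine ⟨.Zf, ?_, ?_, ?_⟩
    · intro g hg
      simp only [rule, Option.mem_def, Option.some.injEq] at hg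
      subst hg
      rw [mem_er]
      rintro ⟨h1, h2⟩
      exact h2 (Set.mem_insert _ _)
    · intro g hg
      simp only [rule, Option.mem_def, Option.some.injEq] at hg
      subst hg
      rw [mem_er, List.mem_append, mem_ctlF]
      rintro ⟨h1, h2⟩
      rcases h1 with (⟨j, hj⟩ | hj | ⟨l, hl⟩) | h1
      · simp at hj
      · simp at hj
      · simp at hl
      · simp at h1
    · exact repl_er _ _ _
  have hfin : er (insert f (insert (b 0 false) ({c | ∃ l : Fin K, c = e l.succ} ∪
        {c | ∃ l : Fin (N + 1), c = b l.succ false}))) (ctlF ++ w.map t) =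
        (w.map t : List (Ltr V I T N K)) := by
    rw [er_append, er_eq_nil, er_eq_self, List.nil_append]
    · intro c hc
      obtain ⟨a, _, rfl⟩ := List.mem_map.1 hc
      simp
    · intro c hc
      rw [mem_ctlF] at hc
      rcases hc with ⟨j, rfl⟩ | rfl | ⟨k, rfl⟩
      · refine Fin.cases ?_ (fun j => ?_) j
        · simp
        · simp
      · simp
      · simp
  rw [hfin] at s6'
  exact ((((ReflTransGen.single s1').trans s2').trans s3'').trans s4'').tail s5' |>.tail s6'

theorem complete [Finite V] [Finite T] (hι : Function.Injective ι) {ω : List V} {w : List T}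
    (hw : ReflTransGen (fun y z => ∃ i, Rewrites (h i) y z) ω (w.map ι)) :
    ReflTransGen (RStep (rule h ι en vs)) (ctlW false (N + 2) ++ ω.map s0)
      (w.map Ltr.t) := by
  have key : ∀ y, ReflTransGen (fun y z => ∃ i, Rewrites (h i) y z) ω y →
      ReflTransGen (RStep (rule h ι en vs)) (ctlW false (N + 2) ++ ω.map s0)
        (ctlW false (N + 2) ++ y.map s0) := by
    intro y hy
    induction hy with
    | refl => exact ReflTransGen.refl
    | tail _ hs ih =>
      obtain ⟨i, hi⟩ := hs
      exact ih.trans (lap hi)
  exact (key _ hw).trans (final hι w)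

/-- the start configuration satisfies the invariant -/
theorem start_inv {D : List V → Prop} {ω : List V} (hω : D ω) :
    InvM h ι en D false (N + 2) (ctlW false (N + 2) ++ ω.map s0 : List (Ltr V I T N K)) := by
  have hun : (ctlW false (N + 2) ++ ω.map s0 : List (Ltr V I T N K)).flatMap (un ι) = ω := by
    rw [List.flatMap_append]
    have h1 : (ctlW false (N + 2) : List (Ltr V I T N K)).flatMap (un ι) = [] := by
      rw [List.flatMap_eq_nil_iff]
      intro c hc
      rw [mem_ctlW] at hc
      rcases hc with ⟨j, rfl⟩ | ⟨k, rfl⟩ <;> rfl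
    rw [h1, List.nil_append, List.flatMap_map]
    simp [un]
  refine ⟨by omega, le_rfl, ?_, ?_, ?_, ?_, ?_, ?_, ?_⟩
  · intro k
    rw [List.mem_append, mem_ctlW]
    exact Or.inl (Or.inr ⟨k, rfl⟩)
  · rw [List.mem_append, mem_ctlW]
    simp
  · intro a
    rw [List.mem_append, mem_ctlW]
    simp
  · intro j y
    rw [List.mem_append, b_mem_ctlW]
    simp
  · intro j _
    rcases en j with v | ⟨p, q⟩
    · left
      simp [cl]
    · left
      intro l hl hl2
      simp only [cl, Option.mem_def, Option.some.injEq] at hl
      subst hl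
      rw [List.mem_append, mem_ctlW] at hl2
      simp at hl2
  · intro hf; exact absurd hf (by simp)
  · intro _
    rw [hun]
    exact hω

end

/-- every ET0L language is generated by a 3-restricted ET0L system -/
theorem three_restricted {T : Type} (G : ET0L T) :
    ∃ G' : ET0L T, G'.IsRestricted 3 ∧ G'.language = G.language := by
  classical
  have hfV : Finite G.Letter := G.finite_letter
  have hfT : Finite T := Finite.of_injective _ G.term_injective
  have hfI : Finite ↥G.tables := G.tables_finite.to_subtype
  have hnI : Nonempty ↥G.tables := G.tables_nonempty.to_subtype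
  obtain ⟨K, ⟨vsE⟩⟩ := Finite.exists_equiv_fin G.Letter
  obtain ⟨M, ⟨enE⟩⟩ := Finite.exists_equiv_fin
    (G.Letter ⊕ ((↥G.tables × Option G.Letter) × (↥G.tables × Option G.Letter)))
  have hM : M ≠ 0 := by
    rintro rfl
    obtain ⟨i⟩ := hnI
    exact (enE (.inr ((i, none), (i, none)))).elim0
  obtain ⟨N, rfl⟩ := Nat.exists_eq_succ_of_ne_zero hM
  let h : ↥G.tables → G.Letter → Set (List G.Letter) := fun i => i.1
  have hA : ∀ r : Ix G.Letter ↥G.tables T N K,
      (rule h G.term enE.symm vsE.symm r).A.Finite := by
    intro r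
    cases r with
    | T1 i v => exact (G.rhs_finite i.1 i.2 v).image _
    | _ => exact Set.finite_singleton _
  have hA' : ∀ r : Ix G.Letter ↥G.tables T N K,
      (rule h G.term enE.symm vsE.symm r).A.Nonempty := by
    intro r
    cases r with
    | T1 i v => exact (G.rhs_nonempty i.1 i.2 v).image _
    | _ => exact Set.singleton_nonempty _
  let st : List (Ltr G.Letter ↥G.tables T N K) := ctlW false (N + 2) ++ G.start.map s0
  have hst : st ≠ [] := by
    intro h0
    have h1 := congrArg List.length h0
    have h2 := G.start_ne_nil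
    simp only [st, List.length_append, List.length_map, List.length_nil] at h1
    exact h2 (List.length_eq_zero_iff.1 (by omega))
  have htinj : Function.Injective (fun a : T => (Ltr.t a : Ltr G.Letter ↥G.tables T N K)) :=
    fun a b hab => by simpa using hab
  refine ⟨sys _ htinj (rule h G.term enE.symm vsE.symm) hA hA' st hst,
    sys_restricted _ _ _ _ _ _ _, ?_⟩
  rw [sys_language _ _ _ _ _ _ _ (rule_proper _ _ _ _)]
  ext w
  constructor
  · intro hw
    exact sound' (D := fun y => ReflTransGen G.Step G.start y) enE.symm.surjective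
      vsE.symm.surjective (fun i y z hy hr => hy.tail ⟨i.1, i.2, hr⟩)
      (start_inv ReflTransGen.refl) hw
  · intro hw
    refine complete G.term_injective ?_
    have hw' : ReflTransGen G.Step G.start (w.map G.term) := hw
    have hle : G.Step ≤ (fun y z => ∃ i : ↥G.tables, Rewrites (h i) y z) := by
      rintro y z ⟨g, hg, hr⟩
      exact ⟨⟨g, hg⟩, hr⟩
    exact ReflTransGen.mono hle _ _ hw'

end Pool.Agent.H119R3.ETSim
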