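import Mathlib

/-!
# ET0L systems and `k`-restricted ET0L systems

Definitions used in the hand-ins on the collapse threshold of the `k`-restricted ET0L hierarchy.
-/

namespace Pool.Agent.H119R3.ETDefs

/-- `Rewrites h x y`: the word `y` is obtained from the word `x` by rewriting every letter
occurrence `c` of `x`, simultaneously and independently, to some word of `h c`. -/
inductive Rewrites {V : Type} (h : V → Set (List V)) : List V → List V → Prop
  | nil : Rewrites h [] []
  | cons {c : V} {x u y : List V} : u ∈ h c → Rewrites h x y → Rewrites h (c :: x) (u ++ y)

/-- An ET0L system with terminal alphabet `T`: a finite alphabet `Letter` into which the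
terminal alphabet is embedded, a finite nonempty set of tables, each of which assigns to every
letter a finite nonempty set of words, and a nonempty start word. -/
structure ET0L (T : Type) where
  /-- the full alphabet -/
  Letter : Type
  /-- the full alphabet is finite -/
  finite_letter : Finite Letter
  /-- the inclusion of the terminal alphabet in the full alphabet -/
  term : T → Letter
  /-- different terminal letters are different letters -/
  term_injective : Function.Injective term
  /-- the tables -/
  tables : Set (Letter → Set (List Letter))
  /-- there are finitely many tables -/
  tables_finite : tables.Finite
  /-- there is at least one table -/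
  tables_nonempty : tables.Nonempty
  /-- every letter has finitely many right-hand sides in every table -/
  rhs_finite : ∀ h ∈ tables, ∀ c, (h c).Finite
  /-- every letter has at least one right-hand side in every table -/
  rhs_nonempty : ∀ h ∈ tables, ∀ c, (h c).Nonempty
  /-- the start word -/
  start : List Letter
  /-- the start word is nonempty -/
  start_ne_nil : start ≠ []

namespace ET0L

variable {T : Type}

/-- One derivation step: some table rewrites `x` to `y`. -/
def Step (G : ET0L T) (x y : List G.Letter) : Prop :=
  ∃ h ∈ G.tables, Rewrites h x y

/-- The generated language: the terminal words that can be derived from the start word. -/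
def language (G : ET0L T) : Set (List T) :=
  {w | Relation.ReflTransGen G.Step G.start (w.map G.term)}

/-- `G` is `k`-restricted: in every table at most `k` letters `c` satisfy `h c ≠ {c}`. -/
def IsRestricted (G : ET0L T) (k : ℕ) : Prop :=
  ∀ h ∈ G.tables, {c : G.Letter | h c ≠ {[c]}}.ncard ≤ k

end ET0L

/-- The family of all languages over the terminal alphabet `T` that are generated by
`k`-restricted ET0L systems. -/
def restrictedFamily (k : ℕ) (T : Type) : Set (Set (List T)) :=
  {L | ∃ G : ET0L T, G.IsRestricted k ∧ G.language = L}

end Pool.Agent.H119R3.ETDefs
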