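import Pool.Agent.H119R3.ETDefs

/-!
# From rules with forbidden letters to 3-restricted ET0L systems
-/

namespace Pool.Agent.H119R3.ETRules

open Pool.Agent.H119R3.ETDefs Relation

/-- every occurrence of the letter `a` is replaced by some word of `A`; all other letters stay -/
inductive Repl {W : Type} (a : W) (A : Set (List W)) : List W → List W → Prop
  | nil : Repl a A [] []
  | hit {u w w' : List W} : u ∈ A → Repl a A w w' → Repl a A (a :: w) (u ++ w')
  | skip {c : W} {w w' : List W} : c ≠ a → Repl a A w w' → Repl a A (c :: w) (c :: w')

/-- a rule: main letter, right-hand sides, two optional forbidden letters -/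
structure Rule (W : Type) where
  a : W
  A : Set (List W)
  g1 : Option W
  g2 : Option W

/-- application of a rule -/
def Rule.App {W : Type} (r : Rule W) (w w' : List W) : Prop :=
  (∀ g ∈ r.g1, g ∉ w) ∧ (∀ g ∈ r.g2, g ∉ w) ∧ Repl r.a r.A w w'

/-- a rule is proper if its forbidden letters differ from the main letter -/
def Rule.Proper {W : Type} (r : Rule W) : Prop :=
  r.g1 ≠ some r.a ∧ r.g2 ≠ some r.a

open Classical in
/-- the table of a rule; `none` is the failure letter -/
noncomputable def tbl {W : Type} (r : Rule W) : Option W → Set (List (Option W)) := fun c =>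
  if c = some r.a then (List.map some) '' r.A
  else if c = r.g1 ∨ c = r.g2 then {[none]} else {[c]}

theorem tbl_none {W : Type} (r : Rule W) : tbl r none = {[none]} := by
  unfold tbl
  rw [if_neg (by simp)]
  split_ifs <;> rfl

theorem none_mem_of_rewrites {W : Type} (r : Rule W) {x y : List (Option W)}
    (h : Rewrites (tbl r) x y) (hx : none ∈ x) : none ∈ y := by
  induction h with
  | nil => exact hx
  | @cons c x u y hu _ ih =>
    rcases List.mem_cons.1 hx with rfl | hx
    · rw [tbl_none] at hu
      rw [Set.mem_singleton_iff.1 hu]
      simp
    · exact List.mem_append_right _ (ih hx)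

theorem app_of_rewrites {W : Type} (r : Rule W) (hr : r.Proper) {x z : List (Option W)}
    (h : Rewrites (tbl r) x z) :
    ∀ w : List W, x = w.map some → none ∉ z → ∃ w', z = w'.map some ∧ r.App w w' := by
  induction h with
  | nil =>
    intro w hw _
    have : w = [] := by simpa using hw.symm
    subst this
    exact ⟨[], rfl, by simp, by simp, Repl.nil⟩
  | @cons c x u y hu _ ih =>
    intro w hw hz
    cases w with
    | nil => simp at hw
    | cons d w =>
      simp only [List.map_cons, List.cons.injEq] at hw
      obtain ⟨rfl, rfl⟩ := hw
      simp only [List.mem_append, not_or] at hz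
      obtain ⟨w', rfl, h1, h2, h3⟩ := ih w rfl hz.2
      by_cases hd : d = r.a
      · subst hd
        unfold tbl at hu
        rw [if_pos rfl] at hu
        obtain ⟨α, hα, rfl⟩ := hu
        refine ⟨α ++ w', by simp, ?_, ?_, Repl.hit hα h3⟩
        · intro g hg
          simp only [List.mem_cons, not_or]
          refine ⟨?_, h1 g hg⟩
          rintro rfl
          exact hr.1 (by simpa using hg)
        · intro g hg
          simp only [List.mem_cons, not_or]
          refine ⟨?_, h2 g hg⟩
          rintro rfl
          exact hr.2 (by simpa using hg)
      · unfold tbl at hu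
        rw [if_neg (by simpa using hd)] at hu
        split_ifs at hu with hg
        · rw [Set.mem_singleton_iff.1 hu] at hz
          simp at hz
        · rw [Set.mem_singleton_iff] at hu
          subst hu
          rw [not_or] at hg
          refine ⟨d :: w', by simp, ?_, ?_, Repl.skip hd h3⟩
          · intro g hgg
            simp only [List.mem_cons, not_or]
            refine ⟨?_, h1 g hgg⟩
            rintro rfl
            exact hg.1 (by simpa using hgg.symm)
          · intro g hgg
            simp only [List.mem_cons, not_or]
            refine ⟨?_, h2 g hgg⟩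
            rintro rfl
            exact hg.2 (by simpa using hgg.symm)

theorem rewrites_of_app {W : Type} (r : Rule W) {w w' : List W} (h : r.App w w') :
    Rewrites (tbl r) (w.map some) (w'.map some) := by
  obtain ⟨h1, h2, h3⟩ := h
  induction h3 with
  | nil => exact Rewrites.nil
  | @hit u w w' hu _ ih =>
    rw [List.map_append, List.map_cons]
    refine Rewrites.cons ?_ (ih (fun g hg h => h1 g hg (List.mem_cons_of_mem _ h))
      (fun g hg h => h2 g hg (List.mem_cons_of_mem _ h)))
    unfold tbl
    rw [if_pos rfl]
    exact ⟨u, hu, rfl⟩
  | @skip c w w' hc _ ih =>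
    rw [List.map_cons, List.map_cons]
    refine Rewrites.cons (u := [some c]) ?_ (ih (fun g hg h => h1 g hg (List.mem_cons_of_mem _ h))
      (fun g hg h => h2 g hg (List.mem_cons_of_mem _ h)))
    unfold tbl
    rw [if_neg (by simpa using hc), if_neg]
    · rfl
    · rintro (h | h)
      · exact h1 c (by simpa using h.symm) List.mem_cons_self
      · exact h2 c (by simpa using h.symm) List.mem_cons_self

/-- the 3-restricted ET0L system of a finite set of rules -/
noncomputable def sys {W T : Type} [Finite W] (ι : T → W) (hι : Function.Injective ι)
    {R : Type} [Finite R] [Nonempty R] (rule : R → Rule W) (hfin : ∀ i, (rule i).A.Finite)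
    (hne : ∀ i, (rule i).A.Nonempty) (st : List W) (hst : st ≠ []) : ET0L T where
  Letter := Option W
  finite_letter := inferInstance
  term := fun a => some (ι a)
  term_injective := fun a b h => hι (Option.some_injective _ h)
  tables := Set.range (fun i => tbl (rule i))
  tables_finite := Set.finite_range _
  tables_nonempty := Set.range_nonempty _
  rhs_finite := by
    rintro _ ⟨i, rfl⟩ c
    show (tbl (rule i) c).Finite
    unfold tbl
    split_ifs
    · exact (hfin i).image _
    · exact Set.finite_singleton _
    · exact Set.finite_singleton _
  rhs_nonempty := by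
    rintro _ ⟨i, rfl⟩ c
    show (tbl (rule i) c).Nonempty
    unfold tbl
    split_ifs
    · exact (hne i).image _
    · exact Set.singleton_nonempty _
    · exact Set.singleton_nonempty _
  start := st.map some
  start_ne_nil := by simpa using hst

section

variable {W T : Type} [Finite W] (ι : T → W) (hι : Function.Injective ι)
    {R : Type} [Finite R] [Nonempty R] (rule : R → Rule W) (hfin : ∀ i, (rule i).A.Finite)
    (hne : ∀ i, (rule i).A.Nonempty) (st : List W) (hst : st ≠ [])

theorem sys_restricted : (sys ι hι rule hfin hne st hst).IsRestricted 3 := by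
  rintro _ ⟨i, rfl⟩
  show {c : Option W | tbl (rule i) c ≠ {[c]}}.ncard ≤ 3
  have hsub : {c : Option W | tbl (rule i) c ≠ {[c]}} ⊆
      {some (rule i).a, (rule i).g1, (rule i).g2} := by
    intro c hc
    by_contra hcon
    apply hc
    simp only [Set.mem_insert_iff, Set.mem_singleton_iff, not_or] at hcon
    unfold tbl
    rw [if_neg hcon.1, if_neg (by rw [not_or]; exact hcon.2)]
  refine (Set.ncard_le_ncard hsub (Set.toFinite _)).trans ?_
  refine (Set.ncard_insert_le _ _).trans ?_
  have := Set.ncard_insert_le (rule i).g1 {(rule i).g2}
  rw [Set.ncard_singleton] at this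
  omega

/-- derivation step by rules -/
def RStep (rule : R → Rule W) (w w' : List W) : Prop := ∃ i, (rule i).App w w'

theorem sys_language (hp : ∀ i, (rule i).Proper) :
    (sys ι hι rule hfin hne st hst).language =
      {w | ReflTransGen (RStep rule) st (w.map ι)} := by
  let S : List (Option W) → List (Option W) → Prop :=
    fun x y => ∃ h ∈ Set.range (fun i => tbl (rule i)), Rewrites h x y
  have key : ∀ z : List (Option W), ReflTransGen S (st.map some) z → none ∉ z →
      ∃ w, z = w.map some ∧ ReflTransGen (RStep rule) st w := by
    intro z hz
    induction hz with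
    | refl => intro _; exact ⟨st, rfl, ReflTransGen.refl⟩
    | tail _ hstep ih =>
      intro hn
      obtain ⟨_, ⟨i, rfl⟩, hrw⟩ := hstep
      obtain ⟨w, rfl, hw⟩ := ih (fun h => hn (none_mem_of_rewrites _ hrw h))
      obtain ⟨w', rfl, happ⟩ := app_of_rewrites _ (hp i) hrw w rfl hn
      exact ⟨w', rfl, hw.tail ⟨i, happ⟩⟩
  have key2 : ∀ w : List W, ReflTransGen (RStep rule) st w →
      ReflTransGen S (st.map some) (w.map some) := by
    intro w hw
    induction hw with
    | refl => exact ReflTransGen.refl
    | tail _ hstep ih =>
      obtain ⟨i, happ⟩ := hstep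
      exact ih.tail ⟨_, ⟨i, rfl⟩, rewrites_of_app _ happ⟩
  have hmap : ∀ w : List T, (w.map ι).map some = w.map (fun a => some (ι a)) := by
    intro w
    rw [List.map_map]
    rfl
  have hlang : ∀ w : List T, w ∈ (sys ι hι rule hfin hne st hst).language ↔
      ReflTransGen S (st.map some) (w.map (fun a => some (ι a))) := fun w => Iff.rfl
  ext w
  rw [hlang, ← hmap]
  constructor
  · intro hw
    obtain ⟨w', h1, h2⟩ := key _ hw (by simp)
    have : w' = w.map ι :=
      (List.map_injective_iff.2 (Option.some_injective _) h1).symm
    rw [this] at h2
    exact h2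
  · intro hw
    exact key2 _ hw

end

end Pool.Agent.H119R3.ETRules
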