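import Pool.Agent.H119R3.ETRules

/-!
# The rule system that simulates an arbitrary ET0L system: definitions and soundness
-/

namespace Pool.Agent.H119R3.ETSim

open Pool.Agent.H119R3.ETDefs Pool.Agent.H119R3.ETRules Relation

/-! ### general lemmas on `Repl` -/

section Repl

variable {W : Type} {a : W} {A : Set (List W)} {w w' : List W}

theorem repl_noop (h : Repl a A w w') (ha : a ∉ w) : w' = w := by
  induction h with
  | nil => rfl
  | hit _ _ _ => exact absurd List.mem_cons_self ha
  | skip _ _ ih => rw [ih (fun h => ha (List.mem_cons_of_mem _ h))]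

theorem repl_mem (h : Repl a A w w') {c : W} (hc : ∀ u ∈ A, c ∉ u) :
    c ∈ w' ↔ c ∈ w ∧ c ≠ a := by
  induction h with
  | nil => simp
  | @hit u w w' hu _ ih =>
    rw [List.mem_append, ih, List.mem_cons]
    have := hc u hu
    tauto
  | @skip d w w' hd _ ih =>
    rw [List.mem_cons, ih, List.mem_cons]
    constructor
    · rintro (rfl | h)
      · exact ⟨Or.inl rfl, hd⟩
      · exact ⟨Or.inr h.1, h.2⟩
    · rintro ⟨rfl | h, h2⟩
      · exact Or.inl rfl
      · exact Or.inr ⟨h, h2⟩

theorem repl_mem_singleton {α : List W} (h : Repl a {α} w w') {c : W} :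
    c ∈ w' ↔ (a ∈ w ∧ c ∈ α) ∨ (c ∈ w ∧ c ≠ a) := by
  induction h with
  | nil => simp
  | @hit u w w' hu _ ih =>
    rw [Set.mem_singleton_iff] at hu
    subst hu
    rw [List.mem_append, ih]
    simp only [List.mem_cons]
    tauto
  | @skip d w w' hd _ ih =>
    rw [List.mem_cons, ih]
    simp only [List.mem_cons]
    constructor
    · rintro (rfl | h | h)
      · exact Or.inr ⟨Or.inl rfl, hd⟩
      · exact Or.inl ⟨Or.inr h.1, h.2⟩
      · exact Or.inr ⟨Or.inr h.1, h.2⟩
    · rintro (⟨h | h, h2⟩ | ⟨rfl | h, h2⟩)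
      · exact absurd h.symm hd
      · exact Or.inr (Or.inl ⟨h, h2⟩)
      · exact Or.inl rfl
      · exact Or.inr (Or.inr ⟨h, h2⟩)

theorem repl_flatMap {V : Type} (g : W → List V) (h : Repl a A w w')
    (hg : ∀ u ∈ A, u.flatMap g = g a) : w'.flatMap g = w.flatMap g := by
  induction h with
  | nil => rfl
  | hit hu _ ih => rw [List.flatMap_append, List.flatMap_cons, hg _ hu, ih]
  | skip _ _ ih => rw [List.flatMap_cons, List.flatMap_cons, ih]

theorem repl_append_inv {x z : List W} (hx : a ∉ x) :
    Repl a A (x ++ w) z → ∃ z', z = x ++ z' ∧ Repl a A w z' := by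
  induction x generalizing z with
  | nil => intro h; exact ⟨z, rfl, h⟩
  | cons c x ih =>
    intro h
    rw [List.cons_append] at h
    cases h with
    | hit _ _ => exact absurd List.mem_cons_self hx
    | skip _ h =>
      obtain ⟨z', rfl, hz⟩ := ih (fun h => hx (List.mem_cons_of_mem _ h)) h
      exact ⟨z', rfl, hz⟩

theorem repl_append {x x' y y' : List W} (h1 : Repl a A x x') (h2 : Repl a A y y') :
    Repl a A (x ++ y) (x' ++ y') := by
  induction h1 with
  | nil => exact h2
  | hit hu _ ih =>
    rw [List.cons_append, List.append_assoc]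
    exact Repl.hit hu ih
  | skip hc _ ih => exact Repl.skip hc ih

theorem repl_refl (ha : a ∉ w) : Repl a A w w := by
  induction w with
  | nil => exact Repl.nil
  | cons c w ih =>
    exact Repl.skip (fun h => ha (h ▸ List.mem_cons_self))
      (ih (fun h => ha (List.mem_cons_of_mem _ h)))

open Classical in
theorem repl_subst (α : List W) (w : List W) :
    Repl a {α} w (w.flatMap (fun c => if c = a then α else [c])) := by
  induction w with
  | nil => exact Repl.nil
  | cons c w ih =>
    rw [List.flatMap_cons]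
    by_cases hc : c = a
    · subst hc
      rw [if_pos rfl]
      exact Repl.hit rfl ih
    · rw [if_neg hc]
      exact Repl.skip hc ih

end Repl

/-! ### the letters and the rules -/

/-- the letters of the simulating system -/
inductive Ltr (V I T : Type) (N K : ℕ) : Type
  | s0 (v : V)
  | s1 (i : I) (u : Option V)
  | t (a : T)
  | f
  | e (k : Fin (K + 1))
  | b (j : Fin (N + 2)) (x : Bool)

instance {V I T : Type} {N K : ℕ} [Finite V] [Finite I] [Finite T] :
    Finite (Ltr V I T N K) := by
  let g : Ltr V I T N K →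
      V ⊕ (I × Option V) ⊕ T ⊕ Unit ⊕ Fin (K + 1) ⊕ (Fin (N + 2) × Bool) := fun l =>
    match l with
    | .s0 v => .inl v
    | .s1 i u => .inr (.inl (i, u))
    | .t a => .inr (.inr (.inl a))
    | .f => .inr (.inr (.inr (.inl ())))
    | .e k => .inr (.inr (.inr (.inr (.inl k))))
    | .b j x => .inr (.inr (.inr (.inr (.inr (j, x)))))
  refine Finite.of_injective g ?_
  intro x y hxy
  cases x <;> cases y <;> simp_all [g]

/-- the rule names -/
inductive Ix (V I T : Type) (N K : ℕ) : Type
  | T1 (i : I) (v : V)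
  | U (i : I) (u : Option V)
  | X (a : T)
  | R0 (y : Bool)
  | R (j : Fin (N + 1)) (y : Bool) (s : Bool)
  | M
  | E (k : Fin K)
  | Z0
  | Zf
  | Z (j : Fin (N + 1)) (x : Bool)

instance {V I T : Type} {N K : ℕ} : Nonempty (Ix V I T N K) := ⟨Ix.M⟩

instance {V I T : Type} {N K : ℕ} [Finite V] [Finite I] [Finite T] :
    Finite (Ix V I T N K) := by
  let g : Ix V I T N K →
      (I × V) ⊕ (I × Option V) ⊕ T ⊕ Bool ⊕ (Fin (N + 1) × Bool × Bool) ⊕ Fin K ⊕ Fin 3 ⊕
        (Fin (N + 1) × Bool) := fun l =>
    match l with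
    | .T1 i v => .inl (i, v)
    | .U i u => .inr (.inl (i, u))
    | .X a => .inr (.inr (.inl a))
    | .R0 y => .inr (.inr (.inr (.inl y)))
    | .R j y s => .inr (.inr (.inr (.inr (.inl (j, y, s)))))
    | .E k => .inr (.inr (.inr (.inr (.inr (.inl k)))))
    | .M => .inr (.inr (.inr (.inr (.inr (.inr (.inl 0))))))
    | .Z0 => .inr (.inr (.inr (.inr (.inr (.inr (.inl 1))))))
    | .Zf => .inr (.inr (.inr (.inr (.inr (.inr (.inl 2))))))
    | .Z j x => .inr (.inr (.inr (.inr (.inr (.inr (.inr (j, x)))))))
  refine Finite.of_injective g ?_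
  intro x y hxy
  cases x <;> cases y <;> simp_all [g]

open Ltr

variable {V I T : Type} {N K : ℕ}

/-- a nonempty marked copy of a word -/
def mark (i : I) : List V → List (Ltr V I T N K)
  | [] => [s1 i none]
  | (u :: us) => (u :: us).map (fun u => s1 i (some u))

/-- reading back a letter -/
def un (ι : T → V) : Ltr V I T N K → List V
  | .s0 v => [v]
  | .s1 _ (some u) => [u]
  | .s1 _ none => []
  | .t a => [ι a]
  | _ => []

open Classical in
/-- the clauses: in the up-wave no `s0` letter and no two marks of different index, in the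
down-wave no marks -/
noncomputable def cl : Bool → V ⊕ ((I × Option V) × (I × Option V)) →
    Option (Ltr V I T N K) × Option (Ltr V I T N K)
  | true, .inl v => (some (s0 v), some (s0 v))
  | true, .inr (p, q) =>
    if p.1 = q.1 then (none, none) else (some (s1 p.1 p.2), some (s1 q.1 q.2))
  | false, .inl _ => (none, none)
  | false, .inr (p, _) => (some (s1 p.1 p.2), some (s1 p.1 p.2))

/-- the rules -/
noncomputable def rule (h : I → V → Set (List V)) (ι : T → V)
    (en : Fin (N + 1) → V ⊕ ((I × Option V) × (I × Option V))) (vs : Fin K → V) :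
    Ix V I T N K → Rule (Ltr V I T N K)
  | .T1 i v => ⟨s0 v, mark i '' h i v, some (b 0 false), some (b 1 true)⟩
  | .U i u => ⟨s1 i u, {u.toList.map s0}, some (b 0 true), some (b 1 false)⟩
  | .X a => ⟨s0 (ι a), {[t a]}, some (e 0), some (e 0)⟩
  | .R0 y => ⟨b 0 (!y), {[b 0 y]}, some (b (Fin.last _) y), if y then some f else none⟩
  | .R j y s => ⟨b j.succ (!y), {[b j.succ y]}, some (b j.castSucc (!y)),
      if s then (cl y (en j)).1 else (cl y (en j)).2⟩
  | .M => ⟨e 0, {[f]}, some (b 0 true), some (b (Fin.last _) true)⟩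
  | .E k => ⟨e k.succ, {[]}, some (s0 (vs k)), some (e k.castSucc)⟩
  | .Z0 => ⟨b 0 false, {[]}, some (e (Fin.last _)), none⟩
  | .Zf => ⟨f, {[]}, some (b 0 false), some (b 0 true)⟩
  | .Z j x => ⟨b j.succ x, {[]}, some (e 0), none⟩

/-- control letters -/
def IsCtl : Ltr V I T N K → Prop
  | .f => True
  | .e _ => True
  | .b _ _ => True
  | _ => False

/-- `Dec h y w`: the content of `w` is obtained from `y` by replacing some letters by marked
right-hand sides -/
inductive Dec (h : I → V → Set (List V)) : List V → List (Ltr V I T N K) → Prop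
  | nil : Dec h [] []
  | ctl {c : Ltr V I T N K} {y : List V} {w : List (Ltr V I T N K)} :
      IsCtl c → Dec h y w → Dec h y (c :: w)
  | s0 {v : V} {y : List V} {w : List (Ltr V I T N K)} : Dec h y w →
      Dec h (v :: y) (Ltr.s0 v :: w)
  | mk {i : I} {v : V} {α y : List V} {w : List (Ltr V I T N K)} : α ∈ h i v → Dec h y w →
      Dec h (v :: y) (mark i α ++ w)

theorem mark_flatMap (ι : T → V) (i : I) (α : List V) :
    (mark i α : List (Ltr V I T N K)).flatMap (un ι) = α := by
  cases α with
  | nil => rfl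
  | cons u us =>
    unfold mark
    rw [List.flatMap_map]
    simp [un]

theorem mem_mark {i : I} {α : List V} {c : Ltr V I T N K} (hc : c ∈ mark i α) :
    ∃ u, c = s1 i u := by
  cases α with
  | nil => exact ⟨none, by simpa [mark] using hc⟩
  | cons u us =>
    unfold mark at hc
    obtain ⟨v, _, rfl⟩ := List.mem_map.1 hc
    exact ⟨some v, rfl⟩

theorem exists_mem_mark (i : I) (α : List V) : ∃ u, (s1 i u : Ltr V I T N K) ∈ mark i α := by
  cases α with
  | nil => exact ⟨none, by simp [mark]⟩
  | cons u us => exact ⟨some u, by simp [mark]⟩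

theorem ctl_not_mem_mark {i : I} {α : List V} {c : Ltr V I T N K} (hc : IsCtl c) :
    c ∉ mark i α := by
  intro h
  obtain ⟨u, rfl⟩ := mem_mark h
  exact hc

theorem dec_ctl {h : I → V → Set (List V)} {a : Ltr V I T N K} {A : Set (List (Ltr V I T N K))}
    (ha : IsCtl a) (hA : ∀ u ∈ A, ∀ c ∈ u, IsCtl c) {y : List V} {w : List (Ltr V I T N K)}
    (hd : Dec h y w) : ∀ {w'}, Repl a A w w' → Dec h y w' := by
  induction hd with
  | nil => intro w' hr; cases hr; exact Dec.nil
  | @ctl c y w hc _ ih =>
    intro w' hr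
    cases hr with
    | @hit u _ w' hu hr =>
      have hu' := hA u hu
      clear hu
      induction u with
      | nil => exact ih hr
      | cons d u ihu =>
        exact Dec.ctl (hu' d List.mem_cons_self) (ihu (fun c hc => hu' c (List.mem_cons_of_mem _ hc)))
    | skip _ hr => exact Dec.ctl hc (ih hr)
  | @s0 v y w _ ih =>
    intro w' hr
    cases hr with
    | hit _ _ => exact absurd ha (by simp [IsCtl])
    | skip _ hr => exact Dec.s0 (ih hr)
  | @mk i v α y w hα _ ih =>
    intro w' hr
    obtain ⟨z', rfl, hz⟩ := repl_append_inv (ctl_not_mem_mark ha) hr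
    exact Dec.mk hα (ih hz)

theorem dec_T {h : I → V → Set (List V)} {i : I} {v : V} {y : List V} {w : List (Ltr V I T N K)}
    (hd : Dec h y w) : ∀ {w'}, Repl (Ltr.s0 v) (mark i '' h i v) w w' → Dec h y w' := by
  induction hd with
  | nil => intro w' hr; cases hr; exact Dec.nil
  | @ctl c y w hc _ ih =>
    intro w' hr
    cases hr with
    | hit _ _ => exact absurd hc (by simp [IsCtl])
    | skip _ hr => exact Dec.ctl hc (ih hr)
  | @s0 v y w _ ih =>
    intro w' hr
    cases hr with
    | hit hu hr =>
      obtain ⟨α, hα, rfl⟩ := hu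
      exact Dec.mk hα (ih hr)
    | skip _ hr => exact Dec.s0 (ih hr)
  | @mk i v α y w hα _ ih =>
    intro w' hr
    obtain ⟨z', rfl, hz⟩ := repl_append_inv (by
      intro hm
      obtain ⟨u, hu⟩ := mem_mark hm
      simp at hu) hr
    exact Dec.mk hα (ih hz)

theorem dec_final {h : I → V → Set (List V)} {ι : T → V} {i : I} {y : List V}
    {w : List (Ltr V I T N K)} (hd : Dec h y w) (h0 : ∀ v, Ltr.s0 v ∉ w)
    (h1 : ∀ i' u, Ltr.s1 i' u ∈ w → i' = i) : Rewrites (h i) y (w.flatMap (un ι)) := by
  induction hd with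
  | nil => exact Rewrites.nil
  | @ctl c y w hc _ ih =>
    rw [List.flatMap_cons]
    have : un ι c = [] := by cases c <;> simp_all [IsCtl, un]
    rw [this, List.nil_append]
    exact ih (fun v hv => h0 v (List.mem_cons_of_mem _ hv))
      (fun i' u hu => h1 i' u (List.mem_cons_of_mem _ hu))
  | @s0 v y w _ ih => exact absurd List.mem_cons_self (h0 v)
  | @mk i' v α y w hα _ ih =>
    obtain ⟨u, hu⟩ := exists_mem_mark (T := T) (N := N) (K := K) i' α
    obtain rfl := h1 i' u (List.mem_append_left _ hu)
    rw [List.flatMap_append, mark_flatMap]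
    exact Rewrites.cons hα (ih (fun v hv => h0 v (List.mem_append_right _ hv))
      (fun i' u hu => h1 i' u (List.mem_append_right _ hu)))

theorem dec_init {h : I → V → Set (List V)} {ι : T → V}
    {w : List (Ltr V I T N K)} (h0 : ∀ i u, Ltr.s1 i u ∉ w)
    (h1 : ∀ a, Ltr.t a ∉ w) : Dec h (w.flatMap (un ι)) w := by
  induction w with
  | nil => exact Dec.nil
  | cons c w ih =>
    have ih' := ih (fun i u hu => h0 i u (List.mem_cons_of_mem _ hu))
      (fun a ha => h1 a (List.mem_cons_of_mem _ ha))
    rw [List.flatMap_cons]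
    cases c with
    | s0 v => exact Dec.s0 ih'
    | s1 i u => exact absurd List.mem_cons_self (h0 i u)
    | t a => exact absurd List.mem_cons_self (h1 a)
    | f => exact Dec.ctl (by simp [IsCtl]) ih'
    | e k => exact Dec.ctl (by simp [IsCtl]) ih'
    | b j x => exact Dec.ctl (by simp [IsCtl]) ih'


section Sound

variable (h : I → V → Set (List V)) (ι : T → V)
    (en : Fin (N + 1) → V ⊕ ((I × Option V) × (I × Option V))) (vs : Fin K → V)

/-- clause letters are `s0` or `s1` letters -/
theorem cl_ctl (y : Bool) (z : V ⊕ ((I × Option V) × (I × Option V)))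
    (c : Ltr V I T N K) (hc : c ∈ (cl y z).1 ∨ c ∈ (cl y z).2) : ¬ IsCtl c := by
  cases y <;> rcases z with v | ⟨p, q⟩
  · simp [cl] at hc
  · simp only [cl, Option.mem_def, Option.some.injEq, or_self] at hc
    subst hc
    simp [IsCtl]
  · simp only [cl, Option.mem_def, Option.some.injEq, or_self] at hc
    subst hc
    simp [IsCtl]
  · simp only [cl] at hc
    split_ifs at hc
    · simp at hc
    · simp only [Option.mem_def, Option.some.injEq] at hc
      rcases hc with rfl | rfl <;> simp [IsCtl]

theorem cl_t (y : Bool) (z : V ⊕ ((I × Option V) × (I × Option V)))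
    (a : T) (hc : (t a : Ltr V I T N K) ∈ (cl y z).1 ∨ (t a : Ltr V I T N K) ∈ (cl y z).2) :
    False := by
  cases y <;> rcases z with v | ⟨p, q⟩
  · simp [cl] at hc
  · simp [cl] at hc
  · simp [cl] at hc
  · simp only [cl] at hc
    split_ifs at hc
    · simp at hc
    · simp at hc

theorem rule_proper (r : Ix V I T N K) : (rule h ι en vs r).Proper := by
  cases r with
  | T1 i v => simp [rule, Rule.Proper]
  | U i u => simp [rule, Rule.Proper]
  | X a => simp [rule, Rule.Proper]
  | R0 y => cases y <;> simp [rule, Rule.Proper]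
  | R j y s =>
    refine ⟨?_, ?_⟩
    · intro h1
      simp only [rule, Option.some.injEq, Ltr.b.injEq] at h1
      have := congrArg Fin.val h1.1
      simp at this
    · intro h1
      simp only [rule] at h1
      have h2 : (b j.succ (!y) : Ltr V I T N K) ∈ (cl y (en j)).1 ∨
          (b j.succ (!y) : Ltr V I T N K) ∈ (cl y (en j)).2 := by
        cases s
        · right; simpa using h1
        · left; simpa using h1
      exact cl_ctl _ _ _ h2 (by simp [IsCtl])
  | M => simp [rule, Rule.Proper]
  | E k =>
    refine ⟨by simp [rule], ?_⟩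
    intro h1
    simp only [rule, Option.some.injEq, Ltr.e.injEq] at h1
    have := congrArg Fin.val h1
    simp at this
  | Z0 => simp [rule, Rule.Proper]
  | Zf => simp [rule, Rule.Proper]
  | Z j x => simp [rule, Rule.Proper]

/-- the bit at position `j` when the front is at `p` and the wave value is `x` -/
def bit (x : Bool) (p j : ℕ) : Bool := if j < p then x else !x

/-- invariant of the working mode -/
structure InvM (D : List V → Prop) (x : Bool) (p : ℕ) (w : List (Ltr V I T N K)) : Prop where
  hp : 1 ≤ p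
  hp' : p ≤ N + 2
  he : ∀ k, e k ∈ w
  hf : f ∉ w
  ht : ∀ a, t a ∉ w
  hb : ∀ (j : Fin (N + 2)) (y : Bool), b j y ∈ w ↔ y = bit x p j.val
  hc : ∀ j : Fin (N + 1), j.val + 1 < p →
    (∀ c ∈ (cl x (en j)).1, c ∉ w) ∨ (∀ c ∈ (cl x (en j)).2, c ∉ w)
  hu : x = true → ∃ y, D y ∧ Dec h y w
  hd : x = false → D (w.flatMap (un ι))

/-- invariant of the final mode -/
structure InvF (D : List V → Prop) (w : List (Ltr V I T N K)) : Prop where
  he0 : e 0 ∉ w
  hb1 : b 0 true ∉ w
  hm : ∀ i u, s1 i u ∉ w
  hf : f ∉ w → b 0 false ∉ w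
  hb0 : b 0 false ∉ w → e (Fin.last K) ∉ w
  hs : ∀ k : Fin (K + 1), e k ∉ w → ∀ k' : Fin K, k'.val < k.val → s0 (vs k') ∉ w
  hd : D (w.flatMap (un ι))

variable {h ι en vs}
variable {D : List V → Prop}

theorem invF_step (hvs : Function.Surjective vs) {w w' : List (Ltr V I T N K)}
    (hw : InvF ι vs D w)
    (r : Ix V I T N K) (hr : (rule h ι en vs r).App w w') : InvF ι vs D w' := by
  obtain ⟨g1, g2, hrep⟩ := hr
  cases r with
  | T1 i v =>
    have h0 : (b 0 false : Ltr V I T N K) ∉ w := g1 _ (by simp [rule])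
    have h1 := hw.hs _ (hw.hb0 h0)
    obtain ⟨k, rfl⟩ := hvs v
    have h2 : (s0 (vs k) : Ltr V I T N K) ∉ w := h1 k k.isLt
    have := repl_noop hrep h2
    rw [this]; exact hw
  | U i u =>
    have := repl_noop hrep (hw.hm i u)
    rw [this]; exact hw
  | X a =>
    simp only [rule] at hrep
    have hmem : ∀ c : Ltr V I T N K, c ≠ s0 (ι a) → c ≠ t a → (c ∈ w' ↔ c ∈ w) := by
      intro c h1 h2
      rw [repl_mem_singleton hrep]
      simp [h1, h2]
    have hs0 : ∀ v, (s0 v : Ltr V I T N K) ∈ w' → s0 v ∈ w := by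
      intro v hv
      rw [repl_mem_singleton hrep] at hv
      simp at hv
      exact hv.1
    refine ⟨?_, ?_, ?_, ?_, ?_, ?_, ?_⟩
    · rw [hmem _ (by simp) (by simp)]; exact hw.he0
    · rw [hmem _ (by simp) (by simp)]; exact hw.hb1
    · intro i u; rw [hmem _ (by simp) (by simp)]; exact hw.hm i u
    · rw [hmem _ (by simp) (by simp), hmem _ (by simp) (by simp)]; exact hw.hf
    · rw [hmem _ (by simp) (by simp), hmem _ (by simp) (by simp)]; exact hw.hb0
    · intro k hk k' hk'
      rw [hmem _ (by simp) (by simp)] at hk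
      exact fun hv => hw.hs k hk k' hk' (hs0 _ hv)
    · rw [repl_flatMap (un ι) hrep (by simp [un])]; exact hw.hd
  | R0 y =>
    cases y with
    | true =>
      have h0 : (b 0 false : Ltr V I T N K) ∉ w := by
        apply hw.hf
        exact g2 _ (by simp [rule])
      have := repl_noop hrep h0
      rw [this]; exact hw
    | false =>
      have := repl_noop hrep hw.hb1
      rw [this]; exact hw
  | R j y s =>
    simp only [rule] at hrep
    have hmem : ∀ c : Ltr V I T N K, c ≠ b j.succ (!y) → c ≠ b j.succ y → (c ∈ w' ↔ c ∈ w) := by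
      intro c h1 h2
      rw [repl_mem_singleton hrep]
      simp [h1, h2]
    have hj : (0 : Fin (N + 2)) ≠ j.succ := (Fin.succ_ne_zero j).symm
    refine ⟨?_, ?_, ?_, ?_, ?_, ?_, ?_⟩
    · rw [hmem _ (by simp) (by simp)]; exact hw.he0
    · rw [hmem _ (by simp [hj]) (by simp [hj])]; exact hw.hb1
    · intro i u; rw [hmem _ (by simp) (by simp)]; exact hw.hm i u
    · rw [hmem _ (by simp) (by simp), hmem _ (by simp [hj]) (by simp [hj])]; exact hw.hf
    · rw [hmem _ (by simp [hj]) (by simp [hj]), hmem _ (by simp) (by simp)]; exact hw.hb0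
    · intro k hk k' hk'
      rw [hmem _ (by simp) (by simp)] at hk
      rw [hmem _ (by simp) (by simp)]
      exact hw.hs k hk k' hk'
    · rw [repl_flatMap (un ι) hrep (by simp [un])]; exact hw.hd
  | M =>
    have := repl_noop hrep hw.he0
    rw [this]; exact hw
  | E k =>
    simp only [rule] at hrep
    have hmem : ∀ c : Ltr V I T N K, c ≠ e k.succ → (c ∈ w' ↔ c ∈ w) := by
      intro c h1
      rw [repl_mem_singleton hrep]
      simp [h1]
    have hk0 : (0 : Fin (K + 1)) ≠ k.succ := (Fin.succ_ne_zero k).symm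
    refine ⟨?_, ?_, ?_, ?_, ?_, ?_, ?_⟩
    · rw [hmem _ (by simp [hk0])]; exact hw.he0
    · rw [hmem _ (by simp)]; exact hw.hb1
    · intro i u; rw [hmem _ (by simp)]; exact hw.hm i u
    · rw [hmem _ (by simp), hmem _ (by simp)]; exact hw.hf
    · rw [hmem _ (by simp)]
      intro h1 h2
      rw [repl_mem_singleton hrep] at h2
      simp only [List.not_mem_nil, and_false, false_or] at h2
      exact hw.hb0 h1 h2.1
    · intro l hl k' hk'
      rw [hmem _ (by simp)]
      by_cases hlk : l = k.succ
      · subst hlk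
        have h1 : (s0 (vs k) : Ltr V I T N K) ∉ w := g1 _ (by simp [rule])
        have h2 : (e k.castSucc : Ltr V I T N K) ∉ w := g2 _ (by simp [rule])
        rcases Nat.lt_succ_iff_lt_or_eq.1 (show k'.val < k.val + 1 by simpa using hk') with h3 | h3
        · exact hw.hs _ h2 k' (by simpa using h3)
        · rw [Fin.ext h3]; exact h1
      · rw [hmem _ (by simpa using hlk)] at hl
        exact hw.hs l hl k' hk'
    · rw [repl_flatMap (un ι) hrep (by simp [un])]; exact hw.hd
  | Z0 =>
    simp only [rule] at hrep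
    have hmem : ∀ c : Ltr V I T N K, c ≠ b 0 false → (c ∈ w' ↔ c ∈ w) := by
      intro c h1
      rw [repl_mem_singleton hrep]
      simp [h1]
    have hb0' : (b 0 false : Ltr V I T N K) ∉ w' := by
      rw [repl_mem_singleton hrep]
      simp
    refine ⟨?_, ?_, ?_, ?_, ?_, ?_, ?_⟩
    · rw [hmem _ (by simp)]; exact hw.he0
    · rw [hmem _ (by simp)]; exact hw.hb1
    · intro i u; rw [hmem _ (by simp)]; exact hw.hm i u
    · exact fun _ => hb0'
    · intro _
      rw [hmem _ (by simp)]
      exact g1 _ (by simp [rule])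
    · intro k hk k' hk'
      rw [hmem _ (by simp)] at hk
      rw [hmem _ (by simp)]
      exact hw.hs k hk k' hk'
    · rw [repl_flatMap (un ι) hrep (by simp [un])]; exact hw.hd
  | Zf =>
    simp only [rule] at hrep
    have hmem : ∀ c : Ltr V I T N K, c ≠ f → (c ∈ w' ↔ c ∈ w) := by
      intro c h1
      rw [repl_mem_singleton hrep]
      simp [h1]
    refine ⟨?_, ?_, ?_, ?_, ?_, ?_, ?_⟩
    · rw [hmem _ (by simp)]; exact hw.he0
    · rw [hmem _ (by simp)]; exact hw.hb1
    · intro i u; rw [hmem _ (by simp)]; exact hw.hm i u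
    · intro _
      rw [hmem _ (by simp)]
      exact g1 _ (by simp [rule])
    · rw [hmem _ (by simp), hmem _ (by simp)]; exact hw.hb0
    · intro k hk k' hk'
      rw [hmem _ (by simp)] at hk
      rw [hmem _ (by simp)]
      exact hw.hs k hk k' hk'
    · rw [repl_flatMap (un ι) hrep (by simp [un])]; exact hw.hd
  | Z j x =>
    simp only [rule] at hrep
    have hmem : ∀ c : Ltr V I T N K, c ≠ b j.succ x → (c ∈ w' ↔ c ∈ w) := by
      intro c h1
      rw [repl_mem_singleton hrep]
      simp [h1]
    have hj : (0 : Fin (N + 2)) ≠ j.succ := (Fin.succ_ne_zero j).symm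
    refine ⟨?_, ?_, ?_, ?_, ?_, ?_, ?_⟩
    · rw [hmem _ (by simp)]; exact hw.he0
    · rw [hmem _ (by simp [hj])]; exact hw.hb1
    · intro i u; rw [hmem _ (by simp)]; exact hw.hm i u
    · rw [hmem _ (by simp), hmem _ (by simp [hj])]; exact hw.hf
    · rw [hmem _ (by simp [hj]), hmem _ (by simp)]; exact hw.hb0
    · intro k hk k' hk'
      rw [hmem _ (by simp)] at hk
      rw [hmem _ (by simp)]
      exact hw.hs k hk k' hk'
    · rw [repl_flatMap (un ι) hrep (by simp [un])]; exact hw.hd


theorem bit_zero {x : Bool} {p : ℕ} (hp : 1 ≤ p) : bit x p 0 = x := by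
  unfold bit
  rw [if_pos (by omega)]

theorem down_clean (hen : Function.Surjective en) {w : List (Ltr V I T N K)}
    (hw : InvM h ι en D false (N + 2) w) : ∀ i u, (s1 i u : Ltr V I T N K) ∉ w := by
  intro i u
  obtain ⟨j, hj⟩ := hen (.inr ((i, u), (i, u)))
  have := hw.hc j (by omega)
  rw [hj] at this
  simp only [cl, Option.mem_def, Option.some.injEq] at this
  rcases this with h | h
  · exact h _ rfl
  · exact h _ rfl

theorem up_s0 (hen : Function.Surjective en) {w : List (Ltr V I T N K)}
    (hw : InvM h ι en D true (N + 2) w) : ∀ v, (s0 v : Ltr V I T N K) ∉ w := by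
  intro v
  obtain ⟨j, hj⟩ := hen (.inl v)
  have := hw.hc j (by omega)
  rw [hj] at this
  simp only [cl, Option.mem_def, Option.some.injEq] at this
  rcases this with h | h
  · exact h _ rfl
  · exact h _ rfl

theorem up_s1 (hen : Function.Surjective en) {w : List (Ltr V I T N K)}
    (hw : InvM h ι en D true (N + 2) w) : ∀ i u i' u', (s1 i u : Ltr V I T N K) ∈ w →
    (s1 i' u' : Ltr V I T N K) ∈ w → i = i' := by
  intro i u i' u' h1 h2
  obtain ⟨j, hj⟩ := hen (.inr ((i, u), (i', u')))
  have := hw.hc j (by omega)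
  rw [hj] at this
  by_contra hne
  simp only [cl, if_neg hne, Option.mem_def, Option.some.injEq] at this
  rcases this with h | h
  · exact h _ rfl h1
  · exact h _ rfl h2

theorem ring_mem {x : Bool} {p : ℕ} {w w' : List (Ltr V I T N K)}
    (hw : InvM h ι en D x p w) {j : Fin (N + 2)} {y : Bool}
    (hj : (b j (!y) : Ltr V I T N K) ∈ w) (hrep : Repl (b j (!y)) {[b j y]} w w') :
    ∀ (j' : Fin (N + 2)) (y' : Bool),
      (b j' y' : Ltr V I T N K) ∈ w' ↔ y' = (if j' = j then y else bit x p j'.val) := by
  intro j' y'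
  rw [repl_mem_singleton hrep, hw.hb]
  rw [hw.hb] at hj
  by_cases hjj : j' = j
  · subst hjj
    rw [if_pos rfl, hw.hb, ← hj]
    simp only [List.mem_singleton, Ltr.b.injEq, true_and, ne_eq]
    cases y <;> cases y' <;> simp
  · rw [if_neg hjj]
    simp [hjj, hw.hb]

theorem invM_step [Nonempty I] (hen : Function.Surjective en)
    (hD : ∀ i y z, D y → Rewrites (h i) y z → D z)
    {x : Bool} {p : ℕ} {w w' : List (Ltr V I T N K)}
    (hw : InvM h ι en D x p w)
    (r : Ix V I T N K) (hr : (rule h ι en vs r).App w w') :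
    (∃ x' p', InvM h ι en D x' p' w') ∨ InvF ι vs D w' := by
  obtain ⟨g1, g2, hrep⟩ := hr
  have hp1 := hw.hp
  have hp2 := hw.hp'
  have hb0 : bit x p 0 = x := bit_zero hp1
  cases r with
  | T1 i v =>
    left
    have h0 : (b 0 false : Ltr V I T N K) ∉ w := g1 _ (by simp [rule])
    have h1 : (b 1 true : Ltr V I T N K) ∉ w := g2 _ (by simp [rule])
    rw [hw.hb] at h0 h1
    have hx : x = true := by
      rw [Fin.val_zero, hb0] at h0
      cases x
      · exact absurd rfl h0
      · rfl
    subst hx
    have hp : p = 1 := by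
      by_contra hne
      apply h1
      unfold bit
      rw [if_pos (by rw [Fin.val_one]; omega)]
    subst hp
    simp only [rule] at hrep
    have hmem : ∀ c : Ltr V I T N K, c ≠ s0 v → (∀ i u, c ≠ s1 i u) → (c ∈ w' ↔ c ∈ w) := by
      intro c h1 h2
      rw [repl_mem hrep]
      · simp [h1]
      · rintro _ ⟨α, _, rfl⟩ hc
        obtain ⟨u, hu⟩ := mem_mark hc
        exact h2 _ _ hu
    obtain ⟨y, hy, hdec⟩ := hw.hu rfl
    refine ⟨true, 1, ⟨le_refl _, by omega, ?_, ?_, ?_, ?_, ?_, ?_, ?_⟩⟩
    · intro k; rw [hmem _ (by simp) (by simp)]; exact hw.he k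
    · rw [hmem _ (by simp) (by simp)]; exact hw.hf
    · intro a; rw [hmem _ (by simp) (by simp)]; exact hw.ht a
    · intro j y; rw [hmem _ (by simp) (by simp)]; exact hw.hb j y
    · intro j hj; omega
    · exact fun _ => ⟨y, hy, dec_T hdec hrep⟩
    · intro hf; exact absurd hf (by simp)
  | U i u =>
    left
    have h0 : (b 0 true : Ltr V I T N K) ∉ w := g1 _ (by simp [rule])
    have h1 : (b 1 false : Ltr V I T N K) ∉ w := g2 _ (by simp [rule])
    rw [hw.hb] at h0 h1
    have hx : x = false := by
      rw [Fin.val_zero, hb0] at h0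
      cases x
      · rfl
      · exact absurd rfl h0
    subst hx
    have hp : p = 1 := by
      by_contra hne
      apply h1
      unfold bit
      rw [if_pos (by rw [Fin.val_one]; omega)]
    subst hp
    simp only [rule] at hrep
    have hmem : ∀ c : Ltr V I T N K, c ≠ s1 i u → (∀ v, c ≠ s0 v) → (c ∈ w' ↔ c ∈ w) := by
      intro c h1 h2
      rw [repl_mem hrep]
      · simp [h1]
      · intro z hz hc
        rw [Set.mem_singleton_iff] at hz
        subst hz
        obtain ⟨v, _, hv⟩ := List.mem_map.1 hc
        exact h2 _ hv.symm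
    refine ⟨false, 1, ⟨le_refl _, by omega, ?_, ?_, ?_, ?_, ?_, ?_, ?_⟩⟩
    · intro k; rw [hmem _ (by simp) (by simp)]; exact hw.he k
    · rw [hmem _ (by simp) (by simp)]; exact hw.hf
    · intro a; rw [hmem _ (by simp) (by simp)]; exact hw.ht a
    · intro j y; rw [hmem _ (by simp) (by simp)]; exact hw.hb j y
    · intro j hj; omega
    · intro hf; exact absurd hf (by simp)
    · intro _
      rw [repl_flatMap (un ι) hrep]
      · exact hw.hd rfl
      · intro z hz
        rw [Set.mem_singleton_iff] at hz
        subst hz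
        cases u <;> simp [un]
  | X a => exact absurd (hw.he 0) (g1 _ (by simp [rule]))
  | R0 y =>
    left
    by_cases h0 : (b 0 (!y) : Ltr V I T N K) ∈ w
    · have hring := ring_mem hw h0 hrep
      rw [hw.hb, Fin.val_zero, hb0] at h0
      obtain rfl : y = !x := by rw [← h0]; simp
      have hlast : (b (Fin.last _) (!x) : Ltr V I T N K) ∉ w := g1 _ (by simp [rule])
      rw [hw.hb] at hlast
      have hp : p = N + 2 := by
        by_contra hne
        apply hlast
        unfold bit
        rw [if_neg (by rw [Fin.val_last]; omega)]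
      subst hp
      simp only [rule] at hrep
      have hmem : ∀ c : Ltr V I T N K, (∀ j y, c ≠ b j y) → (c ∈ w' ↔ c ∈ w) := by
        intro c h1
        rw [repl_mem_singleton hrep]
        simp [h1]
      refine ⟨!x, 1, ⟨le_refl _, by omega, ?_, ?_, ?_, ?_, ?_, ?_, ?_⟩⟩
      · intro k; rw [hmem _ (by simp)]; exact hw.he k
      · rw [hmem _ (by simp)]; exact hw.hf
      · intro a; rw [hmem _ (by simp)]; exact hw.ht a
      · intro j' y'
        rw [hring]
        have : (if j' = 0 then (!x) else bit x (N + 2) j'.val) = bit (!x) 1 j'.val := by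
          unfold bit
          by_cases hj : j' = 0
          · subst hj; simp
          · have h1 : j'.val ≠ 0 := fun h => hj (Fin.ext h)
            rw [if_neg hj, if_pos j'.isLt, if_neg (by omega), Bool.not_not]
        rw [this]
      · intro j hj; omega
      · intro hx
        have hx' : x = false := by cases x <;> simp_all
        subst hx'
        have h1 := down_clean hen hw
        exact ⟨w.flatMap (un ι), hw.hd rfl,
          dec_ctl (by simp [IsCtl]) (by simp [IsCtl]) (dec_init h1 hw.ht) hrep⟩
      · intro hx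
        have hx' : x = true := by cases x <;> simp_all
        subst hx'
        rw [repl_flatMap (un ι) hrep (by simp [un])]
        obtain ⟨y, hy, hdec⟩ := hw.hu rfl
        have h1 := up_s1 hen hw
        obtain ⟨i, hi⟩ : ∃ i : I, ∀ i' u, (s1 i' u : Ltr V I T N K) ∈ w → i' = i := by
          by_cases hex : ∃ i u, (s1 i u : Ltr V I T N K) ∈ w
          · obtain ⟨i, u, hiu⟩ := hex
            exact ⟨i, fun i' u' h' => h1 _ _ _ _ h' hiu⟩
          · exact ⟨Classical.arbitrary I, fun i' u' h' => absurd ⟨i', u', h'⟩ hex⟩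
        exact hD i y _ hy (dec_final hdec (up_s0 hen hw) hi)
    · have := repl_noop hrep h0
      rw [this]; exact ⟨x, p, hw⟩
  | R j y s =>
    left
    by_cases h0 : (b j.succ (!y) : Ltr V I T N K) ∈ w
    · have hring := ring_mem hw h0 hrep
      rw [hw.hb] at h0
      have h1 : (b j.castSucc (!y) : Ltr V I T N K) ∉ w := g1 _ (by simp [rule])
      rw [hw.hb] at h1
      have hxy : y = x ∧ p = j.val + 1 := by
        unfold bit at h0 h1
        rw [Fin.val_succ] at h0
        rw [Fin.val_castSucc] at h1
        by_cases ha : j.val < p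
        · rw [if_pos ha] at h1
          have hyx : y = x := by cases x <;> cases y <;> simp_all
          refine ⟨hyx, ?_⟩
          subst hyx
          by_contra hne
          rw [if_pos (by omega)] at h0
          simp at h0
        · rw [if_neg ha] at h1
          rw [if_neg (by omega)] at h0
          exact absurd h0 h1
      obtain ⟨rfl, rfl⟩ := hxy
      simp only [rule] at hrep
      have hmem : ∀ c : Ltr V I T N K, (∀ j y, c ≠ b j y) → (c ∈ w' ↔ c ∈ w) := by
        intro c h1
        rw [repl_mem_singleton hrep]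
        simp [h1]
      have hj2 := j.isLt
      refine ⟨y, j.val + 2, ⟨by omega, by omega, ?_, ?_, ?_, ?_, ?_, ?_, ?_⟩⟩
      · intro k; rw [hmem _ (by simp)]; exact hw.he k
      · rw [hmem _ (by simp)]; exact hw.hf
      · intro a; rw [hmem _ (by simp)]; exact hw.ht a
      · intro j' y'
        rw [hring]
        have : (if j' = j.succ then y else bit y (j.val + 1) j'.val) =
            bit y (j.val + 2) j'.val := by
          unfold bit
          by_cases hj : j' = j.succ
          · subst hj; simp
          · have h1 : j'.val ≠ j.val + 1 := fun h => hj (Fin.ext (by simpa using h))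
            rw [if_neg hj]
            by_cases h2 : j'.val < j.val + 1
            · rw [if_pos h2, if_pos (by omega)]
            · rw [if_neg h2, if_neg (by omega)]
        rw [this]
      · intro j' hj'
        have hcl : ∀ c, (c ∈ (cl y (en j')).1 ∨ c ∈ (cl y (en j')).2) →
            ((c : Ltr V I T N K) ∈ w' ↔ c ∈ w) := by
          intro c hc
          apply hmem
          intro j'' y'' hcc
          exact cl_ctl _ _ c hc (by rw [hcc]; simp [IsCtl])
        rcases Nat.lt_succ_iff_lt_or_eq.1 (show j'.val < j.val + 1 by omega) with h3 | h3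
        · rcases hw.hc j' (by omega) with h4 | h4
          · exact Or.inl fun c hc => by rw [hcl c (Or.inl hc)]; exact h4 c hc
          · exact Or.inr fun c hc => by rw [hcl c (Or.inr hc)]; exact h4 c hc
        · obtain rfl := Fin.ext h3
          cases s
          · right
            intro c hc
            rw [hcl c (Or.inr hc)]
            exact g2 c (by simpa [rule] using hc)
          · left
            intro c hc
            rw [hcl c (Or.inl hc)]
            exact g2 c (by simpa [rule] using hc)
      · intro hx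
        obtain ⟨z, hz, hdec⟩ := hw.hu hx
        exact ⟨z, hz, dec_ctl (by simp [IsCtl]) (by simp [IsCtl]) hdec hrep⟩
      · intro hx
        rw [repl_flatMap (un ι) hrep (by simp [un])]
        exact hw.hd hx
    · have := repl_noop hrep h0
      rw [this]; exact ⟨x, p, hw⟩
  | M =>
    right
    have h0 : (b 0 true : Ltr V I T N K) ∉ w := g1 _ (by simp [rule])
    have h1 : (b (Fin.last _) true : Ltr V I T N K) ∉ w := g2 _ (by simp [rule])
    have h0' := h0
    rw [hw.hb] at h0 h1
    have hx : x = false := by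
      rw [Fin.val_zero, hb0] at h0
      cases x
      · rfl
      · exact absurd rfl h0
    subst hx
    have hp : p = N + 2 := by
      by_contra hne
      apply h1
      unfold bit
      rw [if_neg (by rw [Fin.val_last]; omega)]
      rfl
    subst hp
    simp only [rule] at hrep
    have hmem : ∀ c : Ltr V I T N K, c ≠ e 0 → c ≠ f → (c ∈ w' ↔ c ∈ w) := by
      intro c h1 h2
      rw [repl_mem_singleton hrep]
      simp [h1, h2]
    have hbf : (b 0 false : Ltr V I T N K) ∈ w' := by
      rw [hmem _ (by simp) (by simp), hw.hb, Fin.val_zero, hb0]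
    refine ⟨?_, ?_, ?_, ?_, ?_, ?_, ?_⟩
    · rw [repl_mem_singleton hrep]; simp
    · rw [hmem _ (by simp) (by simp)]; exact h0'
    · intro i u; rw [hmem _ (by simp) (by simp)]; exact down_clean hen hw i u
    · intro hf
      exfalso
      apply hf
      rw [repl_mem_singleton hrep]
      exact Or.inl ⟨hw.he 0, by simp⟩
    · intro hf; exact absurd hbf hf
    · intro k hk k' hk'
      exfalso
      apply hk
      rw [hmem _ ?_ (by simp)]
      · exact hw.he k
      · intro h
        simp only [Ltr.e.injEq] at h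
        subst h
        simp at hk'
    · rw [repl_flatMap (un ι) hrep (by simp [un])]; exact hw.hd rfl
  | E k => exact absurd (hw.he k.castSucc) (g2 _ (by simp [rule]))
  | Z0 => exact absurd (hw.he (Fin.last _)) (g1 _ (by simp [rule]))
  | Zf =>
    left
    have := repl_noop hrep hw.hf
    rw [this]; exact ⟨x, p, hw⟩
  | Z j x => exact absurd (hw.he 0) (g1 _ (by simp [rule]))

theorem sound [Nonempty I] (hen : Function.Surjective en) (hvs : Function.Surjective vs)
    (hD : ∀ i y z, D y → Rewrites (h i) y z → D z)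
    {st w : List (Ltr V I T N K)} (hst : InvM h ι en D false (N + 2) st)
    (hw : ReflTransGen (RStep (rule h ι en vs)) st w) :
    (∃ x' p', InvM h ι en D x' p' w) ∨ InvF ι vs D w := by
  induction hw with
  | refl => exact Or.inl ⟨_, _, hst⟩
  | tail _ hs ih =>
    obtain ⟨r, hr⟩ := hs
    rcases ih with ⟨x', p', h1⟩ | h1
    · exact invM_step hen hD h1 r hr
    · exact Or.inr (invF_step hvs h1 r hr)

theorem sound' [Nonempty I] (hen : Function.Surjective en) (hvs : Function.Surjective vs)
    (hD : ∀ i y z, D y → Rewrites (h i) y z → D z)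
    {st : List (Ltr V I T N K)} (hst : InvM h ι en D false (N + 2) st) {w : List T}
    (hw : ReflTransGen (RStep (rule h ι en vs)) st (w.map Ltr.t)) : D (w.map ι) := by
  rcases sound hen hvs hD hst hw with ⟨x', p', h1⟩ | h1
  · have := h1.he 0
    simp at this
  · have h2 := h1.hd
    rw [List.flatMap_map] at h2
    have h3 : ∀ w : List T, (w.flatMap fun a => un ι (Ltr.t a : Ltr V I T N K)) = w.map ι := by
      intro w
      induction w with
      | nil => rfl
      | cons a w ih => rw [List.flatMap_cons, ih]; rfl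
    rw [h3] at h2
    exact h2

end Sound

end Pool.Agent.H119R3.ETSim
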