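import Pool.Agent.H119R3.Parikh

set_option autoImplicit false

namespace Pool.Agent.H119R3

open Set Pointwise

variable {A : Type*}

/-- Membership of `x + n d` in `S` is eventually constant in `n`. -/
def EvConst (S : Set (A → ℕ)) (x d : A → ℕ) : Prop :=
  (∃ N : ℕ, ∀ n : ℕ, N ≤ n → x + n • d ∈ S) ∨ (∃ N : ℕ, ∀ n : ℕ, N ≤ n → x + n • d ∉ S)

open Classical in
theorem linear_evConst [Finite A] (S : Set (A → ℕ)) (hS : IsLinearSet S) (i : A) :
    ∃ D : ℕ, 0 < D ∧ ∀ D', 0 < D' → D ∣ D' → ∀ x, EvConst S x (Pi.single i D') := by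
  have := Fintype.ofFinite A
  obtain ⟨a, t, ht, rfl⟩ := hS
  by_cases h : ∃ c, 0 < c ∧ (Pi.single i c : A → ℕ) ∈ t
  · obtain ⟨c, hc, hct⟩ := h
    refine ⟨c, hc, ?_⟩
    rintro D' - ⟨k, rfl⟩ x
    by_cases hx : ∃ n : ℕ, x + n • (Pi.single i (c * k) : A → ℕ) ∈
        a +ᵥ (AddSubmonoid.closure t : Set (A → ℕ))
    · obtain ⟨N, hN⟩ := hx
      left
      refine ⟨N, fun n hn => ?_⟩
      obtain ⟨y, hy, hy'⟩ := hN
      obtain ⟨m, rfl⟩ := Nat.exists_eq_add_of_le hn
      refine ⟨y + (m * k) • (Pi.single i c : A → ℕ), ?_, ?_⟩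
      · exact AddSubmonoid.add_mem _ hy
          (AddSubmonoid.nsmul_mem _ (AddSubmonoid.subset_closure hct) _)
      · simp only [vadd_eq_add] at hy' ⊢
        rw [← add_assoc, hy', add_smul, add_assoc]
        congr 2
        funext j
        by_cases hj : j = i
        · subst hj
          simp
          ring
        · simp [hj]
    · right
      exact ⟨0, fun n _ hn => hx ⟨n, hn⟩⟩
  · push Not at h
    obtain ⟨C, hC⟩ : ∃ C : ℕ, ∀ v ∈ t, v i ≤ C := by
      obtain ⟨C, hC⟩ := (ht.image (fun v => v i)).bddAbove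
      exact ⟨C, fun v hv => hC ⟨v, hv, rfl⟩⟩
    have key : ∀ y ∈ AddSubmonoid.closure t, y i ≤ C * ∑ j ∈ Finset.univ.erase i, y j := by
      intro y hy
      induction hy using AddSubmonoid.closure_induction with
      | mem v hv =>
        by_cases hvi : v i = 0
        · rw [hvi]; exact Nat.zero_le _
        · have : ∃ j, j ≠ i ∧ v j ≠ 0 := by
            by_contra hcon
            push Not at hcon
            apply h (v i) (Nat.pos_of_ne_zero hvi)
            convert hv
            funext j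
            by_cases hj : j = i
            · subst hj; simp
            · rw [hcon j hj]; simp [hj]
          obtain ⟨j, hj, hvj⟩ := this
          have h1 : v j ≤ ∑ j ∈ Finset.univ.erase i, v j :=
            Finset.single_le_sum (f := fun j => v j) (fun _ _ => Nat.zero_le _)
              (Finset.mem_erase.2 ⟨hj, Finset.mem_univ _⟩)
          have h2 : 1 ≤ ∑ j ∈ Finset.univ.erase i, v j := le_trans (Nat.pos_of_ne_zero hvj) h1
          calc v i ≤ C := hC v hv
            _ = C * 1 := (mul_one _).symm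
            _ ≤ _ := Nat.mul_le_mul_left _ h2
      | zero => simp
      | add x y _ _ hx hy =>
        simp only [Pi.add_apply, Finset.sum_add_distrib]
        rw [mul_add]
        exact add_le_add hx hy
    refine ⟨1, one_pos, ?_⟩
    intro D' hD' _ x
    right
    refine ⟨a i + C * (∑ j ∈ Finset.univ.erase i, x j) + 1, ?_⟩
    rintro n hn ⟨y, hy, hy'⟩
    simp only [vadd_eq_add] at hy'
    have h1 := key y hy
    have h2 : ∑ j ∈ Finset.univ.erase i, y j ≤ ∑ j ∈ Finset.univ.erase i, x j := by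
      apply Finset.sum_le_sum
      intro j hj
      have := congrFun hy' j
      have hji : j ≠ i := (Finset.mem_erase.1 hj).1
      simp [hji] at this
      omega
    have h3 := congrFun hy' i
    simp at h3
    have h4 : C * ∑ j ∈ Finset.univ.erase i, y j ≤ C * ∑ j ∈ Finset.univ.erase i, x j :=
      Nat.mul_le_mul_left _ h2
    have h5 : n ≤ n * D' := Nat.le_mul_of_pos_right _ hD'
    omega

theorem evConst_union {S T : Set (A → ℕ)} {x d : A → ℕ} (hS : EvConst S x d)
    (hT : EvConst T x d) : EvConst (S ∪ T) x d := by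
  rcases hS with ⟨N, hN⟩ | ⟨N, hN⟩
  · left
    exact ⟨N, fun n hn => Or.inl (hN n hn)⟩
  · rcases hT with ⟨M, hM⟩ | ⟨M, hM⟩
    · left
      exact ⟨M, fun n hn => Or.inr (hM n hn)⟩
    · right
      refine ⟨max N M, fun n hn => ?_⟩
      rintro (h | h)
      · exact hN n (le_trans (le_max_left _ _) hn) h
      · exact hM n (le_trans (le_max_right _ _) hn) h

open Classical in
theorem semilinear_evConst_one [Finite A] (S : Set (A → ℕ)) (hS : IsSemilinearSet S) (i : A) :
    ∃ D : ℕ, 0 < D ∧ ∀ D', 0 < D' → D ∣ D' → ∀ x, EvConst S x (Pi.single i D') := by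
  obtain ⟨F, hF, hlin, rfl⟩ := hS
  induction F, hF using Set.Finite.induction_on with
  | empty =>
    refine ⟨1, one_pos, fun D' _ _ x => Or.inr ⟨0, fun n _ h => ?_⟩⟩
    simp at h
  | @insert s F _ _ ih =>
    obtain ⟨D1, hD1, h1⟩ := linear_evConst s (hlin s (Set.mem_insert _ _)) i
    obtain ⟨D2, hD2, h2⟩ := ih fun t ht => hlin t (Set.mem_insert_of_mem _ ht)
    refine ⟨D1 * D2, Nat.mul_pos hD1 hD2, fun D' hD' hdvd x => ?_⟩
    rw [Set.sUnion_insert]
    exact evConst_union (h1 D' hD' (dvd_trans (Dvd.intro _ rfl) hdvd) x)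
      (h2 D' hD' (dvd_trans (Dvd.intro_left _ rfl) hdvd) x)

open Classical in
theorem semilinear_evConst [Finite A] (S : Set (A → ℕ)) (hS : IsSemilinearSet S) :
    ∃ D : ℕ, 0 < D ∧ ∀ i x, EvConst S x (Pi.single i D) := by
  have := Fintype.ofFinite A
  choose D hD h using fun i => semilinear_evConst_one S hS i
  have hpos : 0 < ∏ i, D i := Finset.prod_pos fun i _ => hD i
  exact ⟨∏ i, D i, hpos, fun i x => h i _ hpos (Finset.dvd_prod_of_mem _ (Finset.mem_univ i)) x⟩

/-- The last points of `S` in the direction `d`. -/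
def Last (S : Set (A → ℕ)) (d : A → ℕ) : Set (A → ℕ) :=
  {x | x ∈ S ∧ ∀ r : ℕ, 1 ≤ r → x + r • d ∉ S}

theorem last_semilinear [Finite A] (S : Set (A → ℕ)) (hS : IsSemilinearSet S) (d : A → ℕ) :
    IsSemilinearSet (Last S d) := by
  let f : (A → ℕ) × ℕ →+ (A → ℕ) :=
    AddMonoidHom.fst _ _ + (multiplesHom _ d).comp (AddMonoidHom.snd _ _)
  have hf : ∀ x r, f (x, r) = x + r • d := by
    intro x r
    simp [f]
  have h1 : IsSemilinearSet (f ⁻¹' S) := hS.preimage f
  have h2 : IsSemilinearSet ({p : (A → ℕ) × ℕ | 1 ≤ p.2}) := by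
    have : {p : (A → ℕ) × ℕ | 1 ≤ p.2} = ((0, 1) : (A → ℕ) × ℕ) +ᵥ (Set.univ) := by
      ext ⟨x, r⟩
      constructor
      · intro h
        obtain ⟨k, rfl⟩ := Nat.exists_eq_add_of_le (show 1 ≤ r from h)
        exact ⟨(x, k), Set.mem_univ _, by simp⟩
      · rintro ⟨⟨y, k⟩, _, h⟩
        simp at h
        show 1 ≤ r
        omega
    rw [this]
    exact IsSemilinearSet.univ.vadd _
  have h3 := (h1.inter h2).image (AddMonoidHom.fst (A → ℕ) ℕ)
  have : Last S d = S \ (AddMonoidHom.fst (A → ℕ) ℕ '' (f ⁻¹' S ∩ {p | 1 ≤ p.2})) := by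
    ext x
    constructor
    · rintro ⟨hx, hx'⟩
      refine ⟨hx, ?_⟩
      rintro ⟨⟨y, r⟩, ⟨h4, h5⟩, h6⟩
      simp only [AddMonoidHom.coe_fst] at h6
      subst h6
      apply hx' r h5
      rw [← hf]
      exact h4
    · rintro ⟨hx, hx'⟩
      refine ⟨hx, fun r hr h => hx' ⟨(x, r), ⟨?_, hr⟩, rfl⟩⟩
      show f (x, r) ∈ S
      rw [hf]
      exact h
  rw [this]
  exact hS.sdiff h3

/-- A semilinear set with an unbounded coordinate contains a half-line on which this coordinate
increases. -/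
theorem exists_line [Finite A] (S : Set (A → ℕ)) (hS : IsSemilinearSet S) (i : A)
    (h : ∀ N, ∃ x ∈ S, N ≤ x i) : ∃ z w : A → ℕ, 0 < w i ∧ ∀ t : ℕ, z + t • w ∈ S := by
  obtain ⟨F, hF, hlin, rfl⟩ := hS
  by_contra hcon
  push Not at hcon
  have hb : ∀ s ∈ F, ∃ N, ∀ x ∈ s, x i ≤ N := by
    intro s hs
    obtain ⟨a, t, ht, rfl⟩ := hlin s hs
    refine ⟨a i, ?_⟩
    rintro x ⟨y, hy, rfl⟩
    have hv : ∀ v ∈ t, v i = 0 := by
      intro v hv
      by_contra hvi
      obtain ⟨n, hn⟩ := hcon a v (Nat.pos_of_ne_zero hvi)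
      apply hn
      refine ⟨_, hs, ⟨n • v, ?_, rfl⟩⟩
      exact AddSubmonoid.nsmul_mem _ (AddSubmonoid.subset_closure hv) _
    have : y i = 0 := by
      change y ∈ AddSubmonoid.closure t at hy
      induction hy using AddSubmonoid.closure_induction with
      | mem v hv' => exact hv v hv'
      | zero => rfl
      | add x y _ _ hx hy => simp [hx, hy]
    simp [this]
  choose! B hB using hb
  obtain ⟨C, hC⟩ : ∃ C, ∀ s ∈ F, B s ≤ C := by
    obtain ⟨C, hC⟩ := (hF.image B).bddAbove
    exact ⟨C, fun s hs => hC ⟨s, hs, rfl⟩⟩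
  obtain ⟨x, ⟨s, hs, hx⟩, hxi⟩ := h (C + 1)
  have := (hB s hs x hx).trans (hC s hs)
  omega

open Classical in
/-- Either all the last points of the rays have bounded `i`-coordinate, and then `S` is periodic
in direction `i` far away, or there is a line of frontier points. -/
theorem frontier [Finite A] (S : Set (A → ℕ)) (hS : IsSemilinearSet S) (D : ℕ)
    (i : A) (hev : ∀ x, EvConst S x (Pi.single i D)) :
    (∃ N, ∀ x : A → ℕ, N ≤ x i → (x ∈ S ↔ x + Pi.single i D ∈ S)) ∨
      ∃ (z v : A → ℕ) (c : ℕ), 0 < c ∧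
        ((∀ t r : ℕ, z + t • (v + c • Pi.single i D) + r • Pi.single i D ∈ S ↔ r = 0) ∨
          (∀ t r : ℕ, z + t • (v + c • Pi.single i D) + r • Pi.single i D ∉ S ↔ r = 0)) := by
  have hline : ∀ T : Set (A → ℕ), IsSemilinearSet T →
      (∀ N, ∃ x ∈ Last T (Pi.single i D), N ≤ x i) →
      ∃ (z v : A → ℕ) (c : ℕ), 0 < c ∧
        (∀ t r : ℕ, z + t • (v + c • Pi.single i D) + r • Pi.single i D ∈ T ↔ r = 0) := by
    intro T hT hunb
    obtain ⟨z, w, hw, hzw⟩ := exists_line _ (last_semilinear T hT _) i hunb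
    refine ⟨z, D • (w - Pi.single i (w i)), w i, hw, ?_⟩
    have hDw : D • (w - Pi.single i (w i)) + w i • (Pi.single i D : A → ℕ) = D • w := by
      funext j
      by_cases hj : j = i
      · subst hj
        simp
        ring
      · simp [hj]
    intro t r
    rw [hDw, smul_smul]
    obtain ⟨h1, h2⟩ := hzw (t * D)
    constructor
    · intro h
      by_contra hr
      exact h2 r (Nat.pos_of_ne_zero hr) h
    · rintro rfl
      simpa using h1
  by_cases h1 : ∀ N, ∃ x ∈ Last S (Pi.single i D), N ≤ x i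
  · right
    obtain ⟨z, v, c, hc, h⟩ := hline S hS h1
    exact ⟨z, v, c, hc, Or.inl h⟩
  by_cases h2 : ∀ N, ∃ x ∈ Last Sᶜ (Pi.single i D), N ≤ x i
  · right
    obtain ⟨z, v, c, hc, h⟩ := hline Sᶜ hS.compl h2
    exact ⟨z, v, c, hc, Or.inr h⟩
  left
  push Not at h1 h2
  obtain ⟨N1, h1⟩ := h1
  obtain ⟨N2, h2⟩ := h2
  refine ⟨max N1 N2, fun x hx => ?_⟩
  have hN1 : N1 ≤ x i := le_trans (le_max_left _ _) hx
  have hN2 : N2 ≤ x i := le_trans (le_max_right _ _) hx
  have hcoord : ∀ n : ℕ, x i ≤ (x + n • (Pi.single i D : A → ℕ)) i := by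
    intro n
    simp
  -- a general statement about sets whose ray is eventually constantly out
  have gen : ∀ (T : Set (A → ℕ)) (M : ℕ),
      (∀ y ∈ Last T (Pi.single i D), y i < M) → M ≤ x i →
      (∃ N : ℕ, ∀ n : ℕ, N ≤ n → x + n • (Pi.single i D : A → ℕ) ∉ T) →
      ∀ n : ℕ, x + n • (Pi.single i D : A → ℕ) ∉ T := by
    intro T M hM hMx hN
    by_contra hcon
    push Not at hcon
    obtain ⟨n0, hn0⟩ := hcon
    obtain ⟨N, hN⟩ := hN
    let P : ℕ → Prop := fun n => x + n • (Pi.single i D : A → ℕ) ∈ T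
    have hlt : n0 ≤ N := by
      by_contra h
      exact hN n0 (le_of_lt (not_le.1 h)) hn0
    have hmax := Nat.findGreatest_spec (P := P) hlt hn0
    have hgt : ∀ k, Nat.findGreatest P N < k → ¬ P k := by
      intro k hk hPk
      by_cases hkN : k ≤ N
      · exact absurd hPk (Nat.findGreatest_is_greatest hk hkN)
      · exact hN k (le_of_lt (not_le.1 hkN)) hPk
    have hlast : x + (Nat.findGreatest P N) • (Pi.single i D : A → ℕ) ∈
        Last T (Pi.single i D) := by
      refine ⟨hmax, fun r hr => ?_⟩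
      rw [add_assoc, ← add_smul]
      exact hgt _ (by omega)
    have := hM _ hlast
    have := hcoord (Nat.findGreatest P N)
    omega
  rcases hev x with ⟨N, hN⟩ | hout
  · have h3 : ∀ n : ℕ, x + n • (Pi.single i D : A → ℕ) ∉ Sᶜ :=
      gen Sᶜ N2 (fun y hy => h2 y hy) hN2 ⟨N, fun n hn h => h (hN n hn)⟩
    have h4 : x ∈ S := by
      have := h3 0
      simpa using this
    have h5 : x + Pi.single i D ∈ S := by
      have := h3 1
      rw [one_smul] at this
      exact not_not.1 this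
    exact ⟨fun _ => h5, fun _ => h4⟩
  · have h3 : ∀ n : ℕ, x + n • (Pi.single i D : A → ℕ) ∉ S := gen S N1 (fun y hy => h1 y hy) hN1 hout
    have h4 : x ∉ S := by
      have := h3 0
      simpa using this
    have h5 : x + Pi.single i D ∉ S := by
      have := h3 1
      rwa [one_smul] at this
    exact ⟨fun h => absurd h h4, fun h => absurd h h5⟩

end Pool.Agent.H119R3
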