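import Mathlib

set_option autoImplicit false

namespace Pool.Agent.H119R3

open Set Pointwise

section Path

variable {σ M : Type*} [AddCommMonoid M]

/-- Sums of weights along nonempty paths whose intermediate states lie in `T`. -/
inductive Path (W : σ → σ → Set M) (T : Set σ) : σ → σ → M → Prop
  | edge {p q : σ} {x : M} : x ∈ W p q → Path W T p q x
  | cons {p r q : σ} {x y : M} : x ∈ W p r → r ∈ T → Path W T r q y → Path W T p q (x + y)

variable {W : σ → σ → Set M}

theorem Path.mono {T T' : Set σ} (h : T ⊆ T') {p q : σ} {x : M} (hp : Path W T p q x) :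
    Path W T' p q x := by
  induction hp with
  | edge hx => exact Path.edge hx
  | cons hx hr _ ih => exact Path.cons hx (h hr) ih

theorem Path.trans {T : Set σ} {p r q : σ} {x y : M} (hp : Path W T p r x) (hr : r ∈ T)
    (hq : Path W T r q y) : Path W T p q (x + y) := by
  induction hp with
  | edge hx => exact Path.cons hx hr hq
  | cons hx hr' _ ih => rw [add_assoc]; exact Path.cons hx hr' (ih hr hq)

theorem path_closure {T : Set σ} {r : σ} {c : M}
    (hc : c ∈ AddSubmonoid.closure {x | Path W T r r x}) :
    c = 0 ∨ Path W (insert r T) r r c := by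
  induction hc using AddSubmonoid.closure_induction with
  | mem x hx => exact Or.inr (Path.mono (Set.subset_insert _ _) hx)
  | zero => exact Or.inl rfl
  | add x y _ _ hx hy =>
    rcases hx with rfl | hx
    · simpa using hy
    · rcases hy with rfl | hy
      · simpa using Or.inr hx
      · exact Or.inr (hx.trans (Set.mem_insert _ _) hy)

theorem path_insert (T : Set σ) (r p q : σ) :
    {x | Path W (insert r T) p q x} = {x | Path W T p q x} ∪
      ({x | Path W T p r x} + (AddSubmonoid.closure {x | Path W T r r x} : Set M)
        + {x | Path W T r q x}) := by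
  ext x
  constructor
  · intro hx
    change Path W (insert r T) p q x at hx
    induction hx with
    | edge hx => exact Or.inl (Path.edge hx)
    | @cons p r' q x y hx hr' _ ih =>
      by_cases h : r' = r
      · subst h
        right
        rcases ih with ih | ih
        · exact ⟨x + 0, ⟨x, Path.edge hx, 0, AddSubmonoid.zero_mem _, rfl⟩, y, ih, by simp⟩
        · obtain ⟨_, ⟨y1, h1, c, hc, rfl⟩, y2, h2, rfl⟩ := ih
          refine ⟨x + (y1 + c), ⟨x, Path.edge hx, y1 + c,
            AddSubmonoid.add_mem _ (AddSubmonoid.subset_closure h1) hc, rfl⟩, y2, h2, ?_⟩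
          simp only [add_assoc]
      · have hr'' : r' ∈ T := by
          rcases hr' with hr' | hr'
          · exact absurd hr' h
          · exact hr'
        rcases ih with ih | ih
        · exact Or.inl (Path.cons hx hr'' ih)
        · right
          obtain ⟨_, ⟨y1, h1, c, hc, rfl⟩, y2, h2, rfl⟩ := ih
          refine ⟨x + y1 + c, ⟨x + y1, Path.cons hx hr'' h1, c, hc, rfl⟩, y2, h2, ?_⟩
          simp only [add_assoc]
  · rintro (hx | hx)
    · exact Path.mono (Set.subset_insert _ _) hx
    · obtain ⟨_, ⟨y1, h1, c, hc, rfl⟩, y2, h2, rfl⟩ := hx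
      have h1' : Path W (insert r T) p r y1 := Path.mono (Set.subset_insert _ _) h1
      have h2' : Path W (insert r T) r q y2 := Path.mono (Set.subset_insert _ _) h2
      rcases path_closure hc with rfl | hc
      · show Path W (insert r T) p q _
        simpa using h1'.trans (Set.mem_insert _ _) h2'
      · exact (h1'.trans (Set.mem_insert _ _) hc).trans (Set.mem_insert _ _) h2'

theorem path_semilinear [Finite σ] (hW : ∀ p q, IsSemilinearSet (W p q)) (T : Set σ) (p q : σ) :
    IsSemilinearSet {x | Path W T p q x} := by
  have hT : T.Finite := Set.toFinite T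
  induction T, hT using Set.Finite.induction_on generalizing p q with
  | empty =>
    have : {x | Path W ∅ p q x} = W p q := by
      ext x
      constructor
      · intro hx
        cases hx with
        | edge hx => exact hx
        | cons _ hr _ => exact absurd hr (Set.notMem_empty _)
      · exact fun hx => Path.edge hx
    rw [this]
    exact hW p q
  | @insert r T _ _ ih =>
    rw [path_insert]
    exact (ih p q).union (((ih p r).add (ih r r).closure).add (ih r q))

end Path

section Parikh

variable {A : Type*}

open Classical in
/-- The Parikh vector of a word. -/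
noncomputable def pk (w : List A) : A → ℕ := fun a => w.count a

open Classical in
theorem pk_nil : pk ([] : List A) = 0 := by
  funext a
  simp [pk]

open Classical in
theorem pk_cons (a : A) (w : List A) : pk (a :: w) = Pi.single a 1 + pk w := by
  funext b
  simp only [pk, List.count_cons, Pi.add_apply, Pi.single_apply, beq_iff_eq]
  rw [add_comm]
  congr 1
  by_cases h : a = b
  · subst h; simp
  · simp [h, Ne.symm h]

theorem pk_append (v w : List A) : pk (v ++ w) = pk v + pk w := by
  induction v with
  | nil => simp [pk_nil]
  | cons a v ih => rw [List.cons_append, pk_cons, pk_cons, ih, add_assoc]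

theorem pk_perm {v w : List A} : v.Perm w ↔ pk v = pk w := by
  classical
  rw [List.perm_iff_count]
  constructor
  · intro h
    funext a
    simpa [pk] using h a
  · intro h a
    have := congrFun h a
    simpa [pk] using this

theorem pk_surj [Finite A] (x : A → ℕ) : ∃ w : List A, pk w = x := by
  classical
  have := Fintype.ofFinite A
  refine ⟨(Finset.univ : Finset A).toList.flatMap (fun a => List.replicate (x a) a), ?_⟩
  funext b
  simp only [pk, List.count_flatMap]
  have : ∀ a, (List.count b ∘ fun a => List.replicate (x a) a) a = if a = b then x a else 0 := by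
    intro a
    simp [List.count_replicate]
  rw [List.map_congr_left (g := fun a => if a = b then x a else 0) (fun a _ => this a)]
  rw [Finset.sum_map_toList]
  simp

/-- The Parikh image of the language of a DFA over a finite alphabet is semilinear. -/
theorem parikh_dfa [Finite A] {σ : Type*} [Finite σ] (M : DFA A σ) :
    IsSemilinearSet {x : A → ℕ | ∃ w ∈ M.accepts, x = pk w} := by
  classical
  let W : σ → σ → Set (A → ℕ) := fun p q => {x | ∃ a, M.step p a = q ∧ x = Pi.single a 1}
  have hW : ∀ p q, IsSemilinearSet (W p q) := by
    intro p q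
    apply IsSemilinearSet.of_finite
    apply (Set.finite_range (fun a : A => (Pi.single a 1 : A → ℕ))).subset
    rintro x ⟨a, -, rfl⟩
    exact ⟨a, rfl⟩
  have key : ∀ p q x, Path W Set.univ p q x ↔ ∃ w, w ≠ [] ∧ M.evalFrom p w = q ∧ x = pk w := by
    intro p q x
    constructor
    · intro h
      induction h with
      | @edge p q x hx =>
        obtain ⟨a, h1, rfl⟩ := hx
        exact ⟨[a], by simp, by simpa using h1, by simp [pk_cons, pk_nil]⟩
      | @cons p r q x y hx _ _ ih =>
        obtain ⟨a, h1, rfl⟩ := hx
        obtain ⟨w, _, h2, rfl⟩ := ih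
        exact ⟨a :: w, by simp, by rw [DFA.evalFrom_cons, h1, h2], by rw [pk_cons]⟩
    · rintro ⟨w, hw, h, rfl⟩
      induction w generalizing p with
      | nil => exact absurd rfl hw
      | cons a w ih =>
        rw [pk_cons]
        by_cases hw' : w = []
        · subst hw'
          rw [pk_nil, add_zero]
          refine Path.edge ⟨a, ?_, rfl⟩
          simpa using h
        · rw [DFA.evalFrom_cons] at h
          exact Path.cons ⟨a, rfl, rfl⟩ (Set.mem_univ _) (ih (M.step p a) hw' h)
  have : {x : A → ℕ | ∃ w ∈ M.accepts, x = pk w} =
      (⋃ q ∈ M.accept, {x | Path W Set.univ M.start q x}) ∪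
        {x | x = 0 ∧ M.start ∈ M.accept} := by
    ext x
    simp only [Set.mem_ofPred_eq, Set.mem_union, Set.mem_iUnion, key]
    constructor
    · rintro ⟨w, hw, rfl⟩
      by_cases hw' : w = []
      · subst hw'
        exact Or.inr ⟨pk_nil, hw⟩
      · exact Or.inl ⟨M.eval w, hw, w, hw', rfl, rfl⟩
    · rintro (⟨q, hq, w, _, h, rfl⟩ | ⟨rfl, h⟩)
      · refine ⟨w, ?_, rfl⟩
        rw [DFA.mem_accepts, DFA.eval, h]
        exact hq
      · exact ⟨[], h, pk_nil.symm⟩
  rw [this]
  refine (IsSemilinearSet.biUnion (Set.toFinite _) fun q _ => path_semilinear hW _ _ _).union ?_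
  apply IsSemilinearSet.of_finite
  exact (Set.finite_singleton (0 : A → ℕ)).subset fun x hx => hx.1

end Parikh

end Pool.Agent.H119R3
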