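import Pool.Agent.H972ST.Stmts

set_option autoImplicit false

namespace Pool.Agent.H119R3.STFixJ

open Pool.Agent.H972ST

theorem mat_xa0 : mat (.xa 0) = !![-1, 0, 0, 0, 0, 0, 0, 0;
      0, -1, 0, 0, 0, 0, 0, 0;
      0, 0, 1, 0, 0, 0, 0, 0;
      0, 0, 0, -1, 0, 0, 0, 0;
      0, 1, 0, 0, -1, 0, -2, 0;
      0, 0, 0, 0, 1, 0, 1, 1;
      1, 0, 0, 0, 1, 0, 1, 0;
      0, -1, 0, 0, 0, -1, 1, 0] := by
  decide +kernel

theorem mat_xa1 : mat (.xa 1) = !![-1, 0, 0, 0, 0, 0, 0, 0;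
      0, -1, 0, 0, 0, 0, 0, 0;
      0, 0, -1, 0, 0, 0, 0, 0;
      0, 0, 0, 1, 0, 0, 0, 0;
      1, 1, 0, 0, 1, 0, 0, 2;
      0, 0, 0, 0, 0, 0, 1, -1;
      0, -1, 0, 0, -1, -1, 0, -1;
      -1, -1, 0, 0, -1, 0, 0, -1] := by
  decide +kernel

theorem mat_xa2 : mat (.xa 2) = !![-1, 0, 0, 0, 0, 0, 0, 0;
      0, -1, 0, 0, 0, 0, 0, 0;
      0, 0, 1, 0, 0, 0, 0, 0;
      0, 0, 0, -1, 0, 0, 0, 0;
      2, 1, 0, 0, 1, 0, 2, 0;
      -1, 0, 0, 0, -1, 0, -1, -1;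
      -1, -1, 0, 0, -1, 0, -1, 0;
      -1, 0, 0, 0, 0, 1, -1, 0] := by
  decide +kernel

theorem mat_xa3 : mat (.xa 3) = !![-1, 0, 0, 0, 0, 0, 0, 0;
      0, -1, 0, 0, 0, 0, 0, 0;
      0, 0, -1, 0, 0, 0, 0, 0;
      0, 0, 0, 1, 0, 0, 0, 0;
      1, 1, 0, 0, -1, 0, 0, -2;
      -1, 0, 0, 0, 0, 0, -1, 1;
      0, 0, 0, 0, 1, 1, 0, 1;
      0, 0, 0, 0, 1, 0, 0, 1] := by
  decide +kernel


theorem ncard_axis (m : ℕ) (s : Fin 8) (S : Set (Fin 8 → ℤ))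
    (hS : ∀ x, x ∈ S ↔ |x s| ≤ (m : ℤ) ∧ ∀ k, k ≠ s → x k = 0) : S.ncard = 2 * m + 1 := by
  have h1 : S = (fun t : ℤ => (Pi.single s t : Fin 8 → ℤ)) '' (Set.Icc (-(m : ℤ)) m) := by
    ext x
    rw [hS, Set.mem_image]
    constructor
    · rintro ⟨h, h2⟩
      refine ⟨x s, abs_le.1 h, ?_⟩
      funext k
      by_cases hk : k = s
      · subst hk; simp
      · simp [hk, h2 k hk]
    · rintro ⟨t, ht, rfl⟩
      refine ⟨by simpa using abs_le.2 ht, ?_⟩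
      intro k hk
      simp [hk]
  have hinj : Function.Injective (fun t : ℤ => (Pi.single s t : Fin 8 → ℤ)) := by
    intro a b h
    have h2 := congrFun h s
    simpa using h2
  rw [h1, Set.ncard_image_of_injective _ hinj]
  rw [← Finset.coe_Icc, Set.ncard_coe_finset, Int.card_Icc]
  omega

theorem inZ_two (m : ℕ) (x : Fin 8 → ℤ) (h0 : x 0 = 0) (h1 : x 1 = 0) (h3 : x 3 = 0) (h4 : x 4 = 0)
    (h5 : x 5 = 0) (h6 : x 6 = 0) (h7 : x 7 = 0) : InZ m x ↔ |x 2| ≤ (m : ℤ) := by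
  unfold InZ y1 y2 y3 y4
  rw [h0, h1, h3, h4, h5, h6, h7]
  simp only [abs_zero, mul_zero, add_zero, zero_add]
  constructor
  · intro h; exact h.1
  · intro h; refine ⟨h, h, h, ?_, ?_, ?_, ?_⟩ <;> omega

theorem inZ_three (m : ℕ) (x : Fin 8 → ℤ) (h0 : x 0 = 0) (h1 : x 1 = 0) (h2 : x 2 = 0) (h4 : x 4 = 0)
    (h5 : x 5 = 0) (h6 : x 6 = 0) (h7 : x 7 = 0) : InZ m x ↔ |x 3| ≤ (m : ℤ) := by
  unfold InZ y1 y2 y3 y4
  rw [h0, h1, h2, h4, h5, h6, h7]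
  simp only [abs_zero, mul_zero, add_zero, zero_add]
  constructor
  · intro h; exact h.1
  · intro h; refine ⟨h, h, h, ?_, ?_, ?_, ?_⟩ <;> omega

theorem fix_xa0 (m : ℕ) (x : Fin 8 → ℤ) :
    x ∈ {x : Fin 8 → ℤ | InZ m x ∧ (mat (.xa 0)).mulVec x = x} ↔
      |x 2| ≤ (m : ℤ) ∧ ∀ k, k ≠ 2 → x k = 0 := by
  rw [Set.mem_ofPred_eq, mat_xa0]
  constructor
  · rintro ⟨hz, hx⟩
    have e := fun k => congrFun hx k
    have a0 := e 0; have a1 := e 1; have a2 := e 2; have a3 := e 3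
    have a4 := e 4; have a5 := e 5; have a6 := e 6; have a7 := e 7
    simp [Matrix.mulVec, dotProduct, Fin.sum_univ_eight] at a0 a1 a2 a3 a4 a5 a6 a7
    have z : x 0 = 0 ∧ x 1 = 0 ∧ x 3 = 0 ∧ x 4 = 0 ∧ x 5 = 0 ∧ x 6 = 0 ∧ x 7 = 0 := by refine ⟨?_, ?_, ?_, ?_, ?_, ?_, ?_⟩ <;> omega
    obtain ⟨h0, h1, h3, h4, h5, h6, h7⟩ := z
    refine ⟨(inZ_two m x h0 h1 h3 h4 h5 h6 h7).1 hz, ?_⟩
    intro k hk
    fin_cases k <;> first | assumption | exact absurd rfl hk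
  · rintro ⟨h, hk⟩
    have h0 := hk 0 (by decide)
    have h1 := hk 1 (by decide)
    have h3 := hk 3 (by decide)
    have h4 := hk 4 (by decide)
    have h5 := hk 5 (by decide)
    have h6 := hk 6 (by decide)
    have h7 := hk 7 (by decide)
    refine ⟨(inZ_two m x h0 h1 h3 h4 h5 h6 h7).2 h, ?_⟩
    funext k
    fin_cases k <;> simp [Matrix.mulVec, dotProduct, Fin.sum_univ_eight, *]

theorem fix_xa1 (m : ℕ) (x : Fin 8 → ℤ) :
    x ∈ {x : Fin 8 → ℤ | InZ m x ∧ (mat (.xa 1)).mulVec x = x} ↔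
      |x 3| ≤ (m : ℤ) ∧ ∀ k, k ≠ 3 → x k = 0 := by
  rw [Set.mem_ofPred_eq, mat_xa1]
  constructor
  · rintro ⟨hz, hx⟩
    have e := fun k => congrFun hx k
    have a0 := e 0; have a1 := e 1; have a2 := e 2; have a3 := e 3
    have a4 := e 4; have a5 := e 5; have a6 := e 6; have a7 := e 7
    simp [Matrix.mulVec, dotProduct, Fin.sum_univ_eight] at a0 a1 a2 a3 a4 a5 a6 a7
    have z : x 0 = 0 ∧ x 1 = 0 ∧ x 2 = 0 ∧ x 4 = 0 ∧ x 5 = 0 ∧ x 6 = 0 ∧ x 7 = 0 := by refine ⟨?_, ?_, ?_, ?_, ?_, ?_, ?_⟩ <;> omega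
    obtain ⟨h0, h1, h2, h4, h5, h6, h7⟩ := z
    refine ⟨(inZ_three m x h0 h1 h2 h4 h5 h6 h7).1 hz, ?_⟩
    intro k hk
    fin_cases k <;> first | assumption | exact absurd rfl hk
  · rintro ⟨h, hk⟩
    have h0 := hk 0 (by decide)
    have h1 := hk 1 (by decide)
    have h2 := hk 2 (by decide)
    have h4 := hk 4 (by decide)
    have h5 := hk 5 (by decide)
    have h6 := hk 6 (by decide)
    have h7 := hk 7 (by decide)
    refine ⟨(inZ_three m x h0 h1 h2 h4 h5 h6 h7).2 h, ?_⟩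
    funext k
    fin_cases k <;> simp [Matrix.mulVec, dotProduct, Fin.sum_univ_eight, *]

theorem fix_xa2 (m : ℕ) (x : Fin 8 → ℤ) :
    x ∈ {x : Fin 8 → ℤ | InZ m x ∧ (mat (.xa 2)).mulVec x = x} ↔
      |x 2| ≤ (m : ℤ) ∧ ∀ k, k ≠ 2 → x k = 0 := by
  rw [Set.mem_ofPred_eq, mat_xa2]
  constructor
  · rintro ⟨hz, hx⟩
    have e := fun k => congrFun hx k
    have a0 := e 0; have a1 := e 1; have a2 := e 2; have a3 := e 3
    have a4 := e 4; have a5 := e 5; have a6 := e 6; have a7 := e 7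
    simp [Matrix.mulVec, dotProduct, Fin.sum_univ_eight] at a0 a1 a2 a3 a4 a5 a6 a7
    have z : x 0 = 0 ∧ x 1 = 0 ∧ x 3 = 0 ∧ x 4 = 0 ∧ x 5 = 0 ∧ x 6 = 0 ∧ x 7 = 0 := by refine ⟨?_, ?_, ?_, ?_, ?_, ?_, ?_⟩ <;> omega
    obtain ⟨h0, h1, h3, h4, h5, h6, h7⟩ := z
    refine ⟨(inZ_two m x h0 h1 h3 h4 h5 h6 h7).1 hz, ?_⟩
    intro k hk
    fin_cases k <;> first | assumption | exact absurd rfl hk
  · rintro ⟨h, hk⟩
    have h0 := hk 0 (by decide)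
    have h1 := hk 1 (by decide)
    have h3 := hk 3 (by decide)
    have h4 := hk 4 (by decide)
    have h5 := hk 5 (by decide)
    have h6 := hk 6 (by decide)
    have h7 := hk 7 (by decide)
    refine ⟨(inZ_two m x h0 h1 h3 h4 h5 h6 h7).2 h, ?_⟩
    funext k
    fin_cases k <;> simp [Matrix.mulVec, dotProduct, Fin.sum_univ_eight, *]

theorem fix_xa3 (m : ℕ) (x : Fin 8 → ℤ) :
    x ∈ {x : Fin 8 → ℤ | InZ m x ∧ (mat (.xa 3)).mulVec x = x} ↔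
      |x 3| ≤ (m : ℤ) ∧ ∀ k, k ≠ 3 → x k = 0 := by
  rw [Set.mem_ofPred_eq, mat_xa3]
  constructor
  · rintro ⟨hz, hx⟩
    have e := fun k => congrFun hx k
    have a0 := e 0; have a1 := e 1; have a2 := e 2; have a3 := e 3
    have a4 := e 4; have a5 := e 5; have a6 := e 6; have a7 := e 7
    simp [Matrix.mulVec, dotProduct, Fin.sum_univ_eight] at a0 a1 a2 a3 a4 a5 a6 a7
    have z : x 0 = 0 ∧ x 1 = 0 ∧ x 2 = 0 ∧ x 4 = 0 ∧ x 5 = 0 ∧ x 6 = 0 ∧ x 7 = 0 := by refine ⟨?_, ?_, ?_, ?_, ?_, ?_, ?_⟩ <;> omega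
    obtain ⟨h0, h1, h2, h4, h5, h6, h7⟩ := z
    refine ⟨(inZ_three m x h0 h1 h2 h4 h5 h6 h7).1 hz, ?_⟩
    intro k hk
    fin_cases k <;> first | assumption | exact absurd rfl hk
  · rintro ⟨h, hk⟩
    have h0 := hk 0 (by decide)
    have h1 := hk 1 (by decide)
    have h2 := hk 2 (by decide)
    have h4 := hk 4 (by decide)
    have h5 := hk 5 (by decide)
    have h6 := hk 6 (by decide)
    have h7 := hk 7 (by decide)
    refine ⟨(inZ_three m x h0 h1 h2 h4 h5 h6 h7).2 h, ?_⟩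
    funext k
    fin_cases k <;> simp [Matrix.mulVec, dotProduct, Fin.sum_univ_eight, *]

theorem tFixJ : TFixJ := by
  intro m i
  have hi : i = 0 ∨ i = 1 ∨ i = 2 ∨ i = 3 := by revert i; decide
  rcases hi with rfl | rfl | rfl | rfl
  · exact ncard_axis m 2 _ (fix_xa0 m)
  · exact ncard_axis m 3 _ (fix_xa1 m)
  · exact ncard_axis m 2 _ (fix_xa2 m)
  · exact ncard_axis m 3 _ (fix_xa3 m)

end Pool.Agent.H119R3.STFixJ
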