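import Pool.Agent.H119R3.Frontier

set_option autoImplicit false

namespace Pool.Agent.H119R3

open Set

/-- The control automaton: a start marker of mode `k` followed by letters of mode `k`. -/
def ctl : DFA (Bool × Option (Option (Fin 2))) (Option (Option Bool)) where
  step s c := match s, c with
    | none, (k, none) => some (some k)
    | none, (_, some _) => some none
    | some (some k), (k', some _) => if k = k' then some (some k) else some none
    | some (some _), (_, none) => some none
    | some none, _ => some none
  start := none
  accept := {s | ∃ k, s = some (some k)}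

theorem ctl_dead (w : List (Bool × Option (Option (Fin 2)))) :
    ctl.evalFrom (some none) w = some none := by
  induction w with
  | nil => rfl
  | cons c w ih =>
    rw [DFA.evalFrom_cons]
    exact ih

theorem ctl_mode (k : Bool) (w : List (Bool × Option (Option (Fin 2)))) :
    ctl.evalFrom (some (some k)) w ∈ ctl.accept →
      ∃ l : List (Option (Fin 2)), w = l.map (fun y => (k, some y)) := by
  induction w with
  | nil => intro _; exact ⟨[], rfl⟩
  | cons c w ih =>
    intro h
    rw [DFA.evalFrom_cons] at h
    obtain ⟨k', o⟩ := c
    cases o with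
    | none =>
      change ctl.evalFrom (some none) w ∈ ctl.accept at h
      rw [ctl_dead] at h
      obtain ⟨k, hk⟩ := h
      simp at hk
    | some y =>
      by_cases hk : k = k'
      · subst hk
        have h1 : ctl.step (some (some k)) (k, some y) = some (some k) := by
          simp [ctl]
        rw [h1] at h
        obtain ⟨l, rfl⟩ := ih h
        exact ⟨y :: l, rfl⟩
      · have h1 : ctl.step (some (some k)) (k', some y) = some none := by
          simp [ctl, hk]
        rw [h1, ctl_dead] at h
        obtain ⟨k, hk⟩ := h
        simp at hk

theorem ctl_mode_accept (k : Bool) (l : List (Option (Fin 2))) :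
    ctl.evalFrom (some (some k)) (l.map (fun y => (k, some y))) = some (some k) := by
  induction l with
  | nil => rfl
  | cons y l ih =>
    rw [List.map_cons, DFA.evalFrom_cons]
    have h1 : ctl.step (some (some k)) (k, some y) = some (some k) := by
      simp [ctl]
    rw [h1]
    exact ih

theorem ctl_accepts (w : List (Bool × Option (Option (Fin 2)))) :
    w ∈ ctl.accepts ↔ ∃ (k : Bool) (l : List (Option (Fin 2))),
      w = (k, none) :: l.map (fun y => (k, some y)) := by
  rw [DFA.mem_accepts, DFA.eval]
  constructor
  · intro h
    cases w with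
    | nil =>
      obtain ⟨k, hk⟩ := h
      change (none : Option (Option Bool)) = _ at hk
      simp at hk
    | cons c w =>
      rw [DFA.evalFrom_cons] at h
      obtain ⟨k, o⟩ := c
      cases o with
      | none =>
        change ctl.evalFrom (some (some k)) w ∈ ctl.accept at h
        obtain ⟨l, rfl⟩ := ctl_mode k w h
        exact ⟨k, l, rfl⟩
      | some y =>
        change ctl.evalFrom (some none) w ∈ ctl.accept at h
        rw [ctl_dead] at h
        obtain ⟨k, hk⟩ := h
        simp at hk
  · rintro ⟨k, l, rfl⟩
    rw [DFA.evalFrom_cons]
    change ctl.evalFrom (some (some k)) _ ∈ ctl.accept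
    rw [ctl_mode_accept]
    exact ⟨k, rfl⟩

theorem pk_flatMap {A : Type*} (G : Option (Fin 2) → List A) (l : List (Option (Fin 2))) :
    pk (l.flatMap G) = (l.filterMap id).count 0 • pk (G (some 0)) +
      (l.filterMap id).count 1 • pk (G (some 1)) + l.count none • pk (G none) := by
  induction l with
  | nil => simp [pk_nil]
  | cons y l ih =>
    rw [List.flatMap_cons, pk_append, ih]
    rcases y with _ | y
    · simp only [List.filterMap_cons, id, List.count_cons_self, add_smul, one_smul]
      abel
    · match y with
      | 0 =>
        simp [add_smul, one_smul]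
        abel
      | 1 =>
        simp [add_smul, one_smul]
        abel

theorem perm_replicate_iff (x : List (Fin 2)) :
    (∃ m n : ℕ, m ≠ n ∧ x.Perm (List.replicate m (0 : Fin 2) ++ List.replicate n (1 : Fin 2))) ↔
      x.count 0 ≠ x.count 1 := by
  constructor
  · rintro ⟨m, n, hmn, h⟩
    rw [h.count_eq, h.count_eq]
    simpa [List.count_append, List.count_replicate] using hmn
  · intro h
    refine ⟨x.count 0, x.count 1, h, ?_⟩
    rw [List.perm_iff_count]
    intro a
    match a with
    | 0 => simp [List.count_append, List.count_replicate]
    | 1 => simp [List.count_append, List.count_replicate]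

/-- The transduction. -/
theorem transducer {A : Type} [Finite A] (L : Language A) (S : Set (A → ℕ))
    (hL : ∀ w : List A, w ∈ L ↔ pk w ∈ S) (z u v f : A → ℕ)
    (hV : ∀ a b : ℕ, a ≠ b ↔ (∃ r : ℕ, z + a • u + b • v + r • f ∈ S) ∨
      (∃ r : ℕ, z + b • u + a • v + r • f ∈ S)) :
    ∃ (C : Type) (_ : Finite C) (g : C → List A) (h : C → List (Fin 2))
        (τ : Type) (_ : Finite τ) (M : DFA C τ),
        ∀ x : List (Fin 2),
          (∃ m n : ℕ, m ≠ n ∧ x.Perm (List.replicate m (0 : Fin 2) ++ List.replicate n (1 : Fin 2))) ↔
            ∃ w : List C, w ∈ M.accepts ∧ w.flatMap g ∈ L ∧ w.flatMap h = x := by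
  obtain ⟨zw, hzw⟩ := pk_surj z
  obtain ⟨uw, huw⟩ := pk_surj u
  obtain ⟨vw, hvw⟩ := pk_surj v
  obtain ⟨fw, hfw⟩ := pk_surj f
  let G : Bool → Option (Fin 2) → List A := fun k y => match k, y with
    | _, none => fw
    | true, some 0 => uw
    | true, some 1 => vw
    | false, some 0 => vw
    | false, some 1 => uw
  let g : Bool × Option (Option (Fin 2)) → List A := fun c => match c with
    | (_, none) => zw
    | (k, some y) => G k y
  let h : Bool × Option (Option (Fin 2)) → List (Fin 2) := fun c => match c with
    | (_, some (some e)) => [e]
    | _ => []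
  have hg : ∀ (k : Bool) (l : List (Option (Fin 2))),
      ((k, none) :: l.map (fun y => (k, some y))).flatMap g = zw ++ l.flatMap (G k) := by
    intro k l
    rw [List.flatMap_cons, List.flatMap_map]
  have hh : ∀ (k : Bool) (l : List (Option (Fin 2))),
      ((k, none) :: l.map (fun y => (k, some y))).flatMap h = l.filterMap id := by
    intro k l
    rw [List.flatMap_cons]
    have : h (k, none) = [] := rfl
    rw [this, List.nil_append]
    induction l with
    | nil => rfl
    | cons y l ih =>
      rw [List.map_cons, List.flatMap_cons, ih]
      rcases y with _ | y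
      · rfl
      · rfl
  refine ⟨Bool × Option (Option (Fin 2)), inferInstance, g, h, Option (Option Bool),
    inferInstance, ctl, fun x => ?_⟩
  rw [perm_replicate_iff, hV]
  constructor
  · intro hx
    have aux : ∀ (k : Bool) (r : ℕ), zw ++ (x.map some ++ List.replicate r none).flatMap (G k) ∈ L →
        ∃ w : List (Bool × Option (Option (Fin 2))), w ∈ ctl.accepts ∧
          w.flatMap g ∈ L ∧ w.flatMap h = x := by
      intro k r hk
      refine ⟨_, (ctl_accepts _).2 ⟨k, x.map some ++ List.replicate r none, rfl⟩, ?_, ?_⟩
      · rw [hg]
        exact hk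
      · rw [hh]
        simp [List.filterMap_append, List.filterMap_map]
    have hc : ∀ (k : Bool) (r : ℕ), pk (zw ++ (x.map some ++ List.replicate r none).flatMap (G k)) =
        z + (x.count 0 • pk (G k (some 0)) + x.count 1 • pk (G k (some 1)) + r • f) := by
      intro k r
      rw [pk_append, hzw, pk_flatMap]
      have h1 : (x.map some ++ List.replicate r none).filterMap id = x := by
        simp [List.filterMap_append, List.filterMap_map]
      have h2 : (x.map some ++ List.replicate r none).count none = r := by
        rw [List.count_append, List.count_replicate_self, List.count_eq_zero_of_not_mem, zero_add]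
        simp
      have h3 : pk (G k none) = f := by
        cases k <;> exact hfw
      rw [h1, h2, h3]
    rcases hx with ⟨r, hr⟩ | ⟨r, hr⟩
    · apply aux true r
      rw [hL, hc]
      have e0 : pk (G true (some 0)) = u := huw
      have e1 : pk (G true (some 1)) = v := hvw
      rw [e0, e1]
      convert hr using 1
      abel
    · apply aux false r
      rw [hL, hc]
      have e0 : pk (G false (some 0)) = v := hvw
      have e1 : pk (G false (some 1)) = u := huw
      rw [e0, e1]
      convert hr using 1
      abel
  · rintro ⟨w, hw, hwL, hwx⟩
    rw [ctl_accepts] at hw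
    obtain ⟨k, l, rfl⟩ := hw
    rw [hg] at hwL
    rw [hh] at hwx
    rw [hL, pk_append, hzw, pk_flatMap, hwx] at hwL
    have h3 : pk (G k none) = f := by
      cases k <;> exact hfw
    rw [h3] at hwL
    cases k with
    | true =>
      left
      have e0 : pk (G true (some 0)) = u := huw
      have e1 : pk (G true (some 1)) = v := hvw
      rw [e0, e1] at hwL
      refine ⟨l.count none, ?_⟩
      convert hwL using 1
      abel
    | false =>
      right
      have e0 : pk (G false (some 0)) = v := hvw
      have e1 : pk (G false (some 1)) = u := huw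
      rw [e0, e1] at hwL
      refine ⟨l.count none, ?_⟩
      convert hwL using 1
      abel

/-- Periodicity in all directions far away gives regularity. -/
theorem regular_of_periodic {A : Type} [Finite A] (L : Language A) (S : Set (A → ℕ))
    (hL : ∀ w : List A, w ∈ L ↔ pk w ∈ S) (D : ℕ) (hD : 0 < D) [DecidableEq A]
    (h : ∀ i : A, ∃ N, ∀ x : A → ℕ, N ≤ x i → (x ∈ S ↔ x + Pi.single i D ∈ S)) :
    ∃ (σ : Type) (_ : Finite σ) (M : DFA A σ), ∀ w : List A, w ∈ L ↔ w ∈ M.accepts := by
  have := Fintype.ofFinite A
  choose N hN using h
  let B := ∑ i, N i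
  have hB : ∀ i, N i ≤ B := fun i =>
    Finset.single_le_sum (f := N) (fun _ _ => Nat.zero_le _) (Finset.mem_univ i)
  let Q : (A → ℕ) → Language A := fun x => {v | x + pk v ∈ S}
  have hQ : ∀ (n : ℕ) (x : A → ℕ), ∑ i, x i = n → ∃ y : A → ℕ, (∀ i, y i < B + D) ∧ Q x = Q y := by
    intro n
    induction n using Nat.strong_induction_on with
    | _ n ih =>
      intro x hx
      by_cases hc : ∀ i, x i < B + D
      · exact ⟨x, hc, rfl⟩
      · push Not at hc
        obtain ⟨i, hi⟩ := hc
        have hx' : x = (x - Pi.single i D) + Pi.single i D := by
          funext j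
          by_cases hj : j = i
          · subst hj
            simp
            omega
          · simp [hj]
        have hsum : ∑ j, (x - (Pi.single i D : A → ℕ)) j < n := by
          have : ∑ j, x j = ∑ j, (x - (Pi.single i D : A → ℕ)) j + D := by
            conv_lhs => rw [hx']
            simp [Finset.sum_add_distrib]
          omega
        obtain ⟨y, hy, hxy⟩ := ih _ hsum (x - Pi.single i D) rfl
        refine ⟨y, hy, ?_⟩
        rw [← hxy]
        ext v
        show x + pk v ∈ S ↔ (x - Pi.single i D) + pk v ∈ S
        have hNi : N i ≤ ((x - (Pi.single i D : A → ℕ)) + pk v) i := by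
          simp
          have := hB i
          omega
        rw [hN i _ hNi]
        have : x + pk v = (x - Pi.single i D) + pk v + Pi.single i D := by
          rw [add_right_comm, ← hx']
        rw [this]
  have hreg : L.IsRegular := by
    rw [Language.isRegular_iff_finite_range_leftQuotient]
    have hfin : (Q '' {y | ∀ i, y i < B + D}).Finite := by
      apply Set.Finite.image
      have : {y : A → ℕ | ∀ i, y i < B + D} = Set.pi Set.univ (fun _ => Set.Iio (B + D)) := by
        ext y
        simp
      rw [this]
      exact Set.Finite.pi fun _ => Set.finite_Iio _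
    apply hfin.subset
    rintro K ⟨w, rfl⟩
    obtain ⟨y, hy, hwy⟩ := hQ _ (pk w) rfl
    refine ⟨y, hy, ?_⟩
    rw [← hwy]
    ext v
    show pk w + pk v ∈ S ↔ v ∈ L.leftQuotient w
    rw [Language.mem_leftQuotient, hL, pk_append]
  obtain ⟨σ, hσ, M, hM⟩ := hreg
  exact ⟨σ, inferInstance, M, fun w => by rw [hM]⟩

end Pool.Agent.H119R3
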